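import Pool.Agent.Helper64.RFn.GoalsL

open MeasureTheory Set Matrix

open scoped RealInnerProductSpace

namespace Pool.Agent.Helper2.RFn

open Pool.Agent.Helper47.RFn (EE MF pd Hom0 Sm IsMetric cyl Chr Rup Rm ip gvol)
open Pool.Agent.Helper64.RFn

noncomputable section

abbrev Mat (n : ℕ) := Matrix (Fin (n + 1)) (Fin (n + 1)) ℝ

/-- partial derivatives of a matrix valued function -/
structure MD {n : ℕ} (F : EE n → Mat n) (x : EE n) (D : Fin (n + 1) → Mat n) : Prop where
  diff : ∀ a b, DifferentiableAt ℝ (fun y => F y a b) x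
  val : ∀ i a b, pd i (fun y => F y a b) x = D i a b

variable {n : ℕ}

theorem pd_mul {f g : EE n → ℝ} {x : EE n} (hf : DifferentiableAt ℝ f x)
    (hg : DifferentiableAt ℝ g x) (i : Fin (n + 1)) :
    pd i (fun y => f y * g y) x = pd i f x * g x + f x * pd i g x := by
  unfold pd
  rw [fderiv_fun_mul hf hg]
  simp
  ring

theorem pd_sum {ι : Type} (s : Finset ι) {f : ι → EE n → ℝ} {x : EE n}
    (hf : ∀ a ∈ s, DifferentiableAt ℝ (f a) x) (i : Fin (n + 1)) :
    pd i (fun y => ∑ a ∈ s, f a y) x = ∑ a ∈ s, pd i (f a) x := by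
  unfold pd
  rw [fderiv_fun_sum hf]
  simp

theorem pd_sub {f g : EE n → ℝ} {x : EE n} (hf : DifferentiableAt ℝ f x)
    (hg : DifferentiableAt ℝ g x) (i : Fin (n + 1)) :
    pd i (fun y => f y - g y) x = pd i f x - pd i g x := by
  unfold pd
  rw [fderiv_fun_sub hf hg]
  simp

theorem MD.mul {F G : EE n → Mat n} {x : EE n} {D E : Fin (n + 1) → Mat n} (hF : MD F x D)
    (hG : MD G x E) : MD (fun y => F y * G y) x (fun i => D i * G x + F x * E i) := by
  constructor
  · intro a b
    simp only [Matrix.mul_apply]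
    exact DifferentiableAt.fun_sum fun c _ => (hF.diff a c).mul (hG.diff c b)
  · intro i a b
    simp only [Matrix.mul_apply, Matrix.add_apply]
    rw [pd_sum (f := fun c y => F y a c * G y c b) _
      (fun c _ => (hF.diff a c).mul (hG.diff c b)), ← Finset.sum_add_distrib]
    refine Finset.sum_congr rfl fun c _ => ?_
    rw [pd_mul (hF.diff a c) (hG.diff c b), hF.val, hG.val]

theorem MD.sub {F G : EE n → Mat n} {x : EE n} {D E : Fin (n + 1) → Mat n} (hF : MD F x D)
    (hG : MD G x E) : MD (fun y => F y - G y) x (fun i => D i - E i) := by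
  constructor
  · intro a b
    exact (hF.diff a b).sub (hG.diff a b)
  · intro i a b
    show pd i (fun y => F y a b - G y a b) x = D i a b - E i a b
    rw [pd_sub (hF.diff a b) (hG.diff a b), hF.val, hG.val]

theorem MD.tr {F : EE n → Mat n} {x : EE n} {D : Fin (n + 1) → Mat n} (hF : MD F x D) :
    MD (fun y => (F y)ᵀ) x (fun i => (D i)ᵀ) := by
  constructor
  · intro a b
    exact hF.diff b a
  · intro i a b
    exact hF.val i b a

theorem MD.unique {F : EE n → Mat n} {x : EE n} {D E : Fin (n + 1) → Mat n} (h1 : MD F x D)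
    (h2 : MD F x E) : D = E := by
  funext i
  ext a b
  rw [← h1.val, ← h2.val]

theorem MD.const (C : Mat n) (x : EE n) : MD (fun _ => C) x (fun _ => 0) := by
  constructor
  · intro a b; exact differentiableAt_const _
  · intro i a b
    simp [pd]

/-- derivatives of smooth functions off the origin -/
theorem smooth_diff {f : EE n → ℝ} (hf : ContDiffOn ℝ (⊤ : ℕ∞) f {0}ᶜ) {x : EE n} (hx : x ≠ 0) :
    DifferentiableAt ℝ f x :=
  (hf.contDiffAt (isOpen_compl_singleton.mem_nhds hx)).differentiableAt (by simp)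

theorem smooth_pd {f : EE n → ℝ} (hf : ContDiffOn ℝ (⊤ : ℕ∞) f {0}ᶜ) (i : Fin (n + 1)) :
    ContDiffOn ℝ (⊤ : ℕ∞) (pd i f) {0}ᶜ := by
  have h1 : ContDiffOn ℝ (⊤ : ℕ∞) (fderiv ℝ f) {0}ᶜ :=
    hf.fderiv_of_isOpen isOpen_compl_singleton (by simp)
  exact h1.clm_apply contDiffOn_const

theorem pd_symm {f : EE n → ℝ} (hf : ContDiffOn ℝ (⊤ : ℕ∞) f {0}ᶜ) {x : EE n} (hx : x ≠ 0)
    (i j : Fin (n + 1)) : pd i (pd j f) x = pd j (pd i f) x := by
  have hc : ContDiffAt ℝ (⊤ : ℕ∞) f x := hf.contDiffAt (isOpen_compl_singleton.mem_nhds hx)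
  have hd : DifferentiableAt ℝ (fderiv ℝ f) x :=
    (hc.fderiv_right (m := 1) (by norm_cast)).differentiableAt (by simp)
  have key : ∀ i j : Fin (n + 1), pd i (pd j f) x =
      fderiv ℝ (fderiv ℝ f) x (EuclideanSpace.single i 1) (EuclideanSpace.single j 1) := by
    intro i j
    unfold pd
    rw [fderiv_clm_apply hd (differentiableAt_const _)]
    simp
  have hs : IsSymmSndFDerivAt ℝ f x := (hc.of_le (m := 2) (by norm_cast)).isSymmSndFDerivAt (by simp)
  rw [key, key]
  exact hs _ _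

theorem fderiv_pd {f : EE n → ℝ} {x : EE n} (v : EE n) :
    fderiv ℝ f x v = ∑ i, v i * pd i f x := by
  have : v = ∑ i, v i • EuclideanSpace.single i (1:ℝ) := by
    ext j
    simp [Finset.sum_apply, Pi.single_apply]
  conv_lhs => rw [this]
  rw [map_sum]
  refine Finset.sum_congr rfl fun i _ => ?_
  rw [map_smul]
  rfl

/-- the matrix identity -/
theorem mat_id (t a ti tj Gi Gj Gji Gij tij : Mat n) (h2 : a * t = 1) :
    (((ti * Gj + t * Gji) * a + t * Gj * (-(a * ti * a))) - (tij * a + tj * (-(a * ti * a))))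
    - (((tj * Gi + t * Gij) * a + t * Gi * (-(a * tj * a))) - (tij * a + ti * (-(a * tj * a))))
    + (t * Gi * a - ti * a) * (t * Gj * a - tj * a) - (t * Gj * a - tj * a) * (t * Gi * a - ti * a)
    = t * (Gji - Gij + Gi * Gj - Gj * Gi) * a := by
  have e1 : (t * Gi * a) * (t * Gj * a) = t * (Gi * Gj) * a := by
    calc (t * Gi * a) * (t * Gj * a) = t * Gi * (a * t) * Gj * a := by noncomm_ring
      _ = _ := by rw [h2]; noncomm_ring
  have e2 : (t * Gj * a) * (t * Gi * a) = t * (Gj * Gi) * a := by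
    calc (t * Gj * a) * (t * Gi * a) = t * Gj * (a * t) * Gi * a := by noncomm_ring
      _ = _ := by rw [h2]; noncomm_ring
  have e3 : (ti * a) * (t * Gj * a) = ti * Gj * a := by
    calc (ti * a) * (t * Gj * a) = ti * (a * t) * Gj * a := by noncomm_ring
      _ = _ := by rw [h2]; noncomm_ring
  have e4 : (tj * a) * (t * Gi * a) = tj * Gi * a := by
    calc (tj * a) * (t * Gi * a) = tj * (a * t) * Gi * a := by noncomm_ring
      _ = _ := by rw [h2]; noncomm_ring
  rw [sub_mul (t * Gi * a), sub_mul (t * Gj * a), mul_sub, mul_sub, mul_sub, mul_sub, e1, e2, e3, e4]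
  noncomm_ring

abbrev LL : Mat n ≃⋆ₐ[ℝ] (V (n + 1) →L[ℝ] V (n + 1)) := Matrix.toEuclideanCLM (𝕜 := ℝ)

theorem LL_sum (M : Mat n) : LL M = ∑ a, ∑ b, M a b • LL (Matrix.single a b (1:ℝ)) := by
  conv_lhs => rw [matrix_eq_sum_single M]
  rw [map_sum]
  refine Finset.sum_congr rfl fun a _ => ?_
  rw [map_sum]
  refine Finset.sum_congr rfl fun b _ => ?_
  rw [← map_smul]
  congr 1
  simp [Matrix.smul_single]

/-- constant coefficient of the connection form -/
def WW (i a b : Fin (n + 1)) : V (n + 1) →L[ℝ] (V (n + 1) →L[ℝ] V (n + 1)) :=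
  (EuclideanSpace.proj i : V (n + 1) →L[ℝ] ℝ).smulRight (LL (Matrix.single a b (1:ℝ)))

theorem Bm_eq (G A θ : MF n) : Bm G A θ = fun y => ∑ i, ∑ a, ∑ b, Mi G A θ i y a b • WW i a b := by
  funext y
  unfold Bm WW
  refine Finset.sum_congr rfl fun i _ => ?_
  ext1 u
  simp only [ContinuousLinearMap.smulRight_apply, ContinuousLinearMap.sum_apply,
    ContinuousLinearMap.smul_apply]
  rw [show (Matrix.toEuclideanCLM (𝕜 := ℝ) (Mi G A θ i y)) =
    ∑ a, ∑ b, (Mi G A θ i y) a b • LL (Matrix.single a b (1:ℝ)) from LL_sum _, Finset.smul_sum]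
  refine Finset.sum_congr rfl fun a _ => ?_
  rw [Finset.smul_sum]
  exact Finset.sum_congr rfl fun b _ => smul_comm _ _ _

theorem Bm_app (G A θ : MF n) (y : EE n) (u : V (n + 1)) :
    Bm G A θ y u = LL (∑ i, u i • Mi G A θ i y) := by
  unfold Bm
  rw [map_sum, ContinuousLinearMap.sum_apply]
  refine Finset.sum_congr rfl fun i _ => ?_
  rw [map_smul]
  rfl

theorem fderiv_comb {E F : Type*} [NormedAddCommGroup E] [NormedSpace ℝ E] [NormedAddCommGroup F]
    [NormedSpace ℝ F] {ι : Type*} (s : Finset ι) (f : ι → E → ℝ) (W : ι → F) {x : E}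
    (hf : ∀ i ∈ s, DifferentiableAt ℝ (f i) x) (u : E) :
    fderiv ℝ (fun y => ∑ i ∈ s, f i y • W i) x u = ∑ i ∈ s, fderiv ℝ (f i) x u • W i := by
  have h := HasFDerivAt.fun_sum (u := s) (fun i hi => (hf i hi).hasFDerivAt.smul_const (W i))
  rw [h.fderiv]
  simp

theorem fderiv_Bm (G A θ : MF n) (x : EE n) (D : Fin (n + 1) → Fin (n + 1) → Mat n)
    (hD : ∀ i, MD (Mi G A θ i) x (D i)) (u v : V (n + 1)) :
    fderiv ℝ (Bm G A θ) x u v = LL (∑ i, ∑ j, (u j * v i) • D i j) := by
  have e0 : Bm G A θ = fun y => ∑ q : Fin (n + 1) × Fin (n + 1) × Fin (n + 1),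
      (Mi G A θ q.1 y q.2.1 q.2.2) • (WW q.1 q.2.1 q.2.2 :
        V (n + 1) →L[ℝ] (V (n + 1) →L[ℝ] V (n + 1))) := by
    rw [Bm_eq]
    funext y
    rw [Fintype.sum_prod_type]
    refine Finset.sum_congr rfl fun i _ => ?_
    rw [Fintype.sum_prod_type]
  rw [e0]
  have h := fderiv_comb (Finset.univ : Finset (Fin (n + 1) × Fin (n + 1) × Fin (n + 1)))
    (fun q y => Mi G A θ q.1 y q.2.1 q.2.2) (fun q => (WW q.1 q.2.1 q.2.2 :
        V (n + 1) →L[ℝ] (V (n + 1) →L[ℝ] V (n + 1)))) (x := x)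
    (fun q _ => (hD q.1).diff q.2.1 q.2.2) u
  rw [h, ContinuousLinearMap.sum_apply, Fintype.sum_prod_type, map_sum]
  refine Finset.sum_congr rfl fun i _ => ?_
  rw [Fintype.sum_prod_type, LL_sum]
  refine Finset.sum_congr rfl fun a _ => Finset.sum_congr rfl fun b _ => ?_
  have h1 : fderiv ℝ (fun y => Mi G A θ i y a b) x u = ∑ j, u j * D i j a b := by
    rw [fderiv_pd]
    exact Finset.sum_congr rfl fun j _ => by rw [(hD i).val]
  have h2 : (EuclideanSpace.proj i : V (n + 1) →L[ℝ] ℝ) v = v i := rfl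
  simp only [ContinuousLinearMap.smul_apply, WW, ContinuousLinearMap.smulRight_apply, h2, h1]
  rw [smul_smul, Matrix.sum_apply]
  congr 1
  rw [Finset.sum_mul]
  refine Finset.sum_congr rfl fun j _ => ?_
  simp only [Matrix.smul_apply, smul_eq_mul]
  ring

theorem curn (chr : CHRn) : CURn := by
  intro n G A θ hC x hx u v
  obtain ⟨-, -, -, -, -, hsm⟩ := chr n G hC.met
  have hθs : ∀ a b, ContDiffOn ℝ (⊤ : ℕ∞) (fun y => θ y a b) {0}ᶜ := fun a b => (hC.smt a b).cd
  -- derivative of θ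
  set t : MF n := fun y => (θ y)ᵀ with ht
  set a : MF n := fun y => (A y)ᵀ with ha
  set Γ : Fin (n + 1) → MF n := fun i y => Matrix.of (fun k j => Chr G i j k y) with hΓ
  set td : Fin (n + 1) → MF n := fun i y => (Matrix.of (fun a b => pd i (fun y => θ y a b) y))ᵀ
    with htd
  set tdd : Fin (n + 1) → Fin (n + 1) → Mat n := fun i j =>
    (Matrix.of (fun a b => pd i (pd j (fun y => θ y a b)) x))ᵀ with htdd
  have hM : ∀ i y, Mi G A θ i y = t y * Γ i y * a y - td i y * a y := fun i y => rfl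
  have hta : ∀ y, t y * a y = 1 := fun y => by
    rw [ht, ha]
    show (θ y)ᵀ * (A y)ᵀ = 1
    rw [← Matrix.transpose_mul, hC.inv, Matrix.transpose_one]
  have hat : ∀ y, a y * t y = 1 := fun y => mul_eq_one_comm.1 (hta y)
  have dθ : MD t x (fun i => td i x) := by
    constructor
    · intro c d; exact smooth_diff (hθs d c) hx
    · intro i c d; rfl
  have dtd : ∀ j, MD (td j) x (fun i => tdd i j) := fun j => by
    constructor
    · intro c d; exact smooth_diff (smooth_pd (hθs d c) j) hx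
    · intro i c d; rfl
  have dΓ : ∀ j, MD (Γ j) x (fun i => Matrix.of (fun k l => pd i (Chr G j l k) x)) := fun j => by
    constructor
    · intro c d; exact smooth_diff (hsm j d c) hx
    · intro i c d; rfl
  obtain ⟨ad, dA⟩ : ∃ ad, MD a x ad :=
    ⟨fun i => Matrix.of (fun c d => pd i (fun y => a y c d) x), by
      constructor
      · intro c d; exact smooth_diff (hC.smA d c).cd hx
      · intro i c d; rfl⟩
  have had : ∀ i, ad i = -(a x * td i x * a x) := fun i => by
    have h1 := dA.mul dθ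
    have h2 : (fun y => a y * t y) = fun _ => (1 : Mat n) := funext fun y => hat y
    rw [h2] at h1
    have h3 := congrFun (h1.unique (MD.const 1 x)) i
    have h4 : ad i * t x * a x + a x * td i x * a x = 0 := by
      rw [← add_mul, h3, zero_mul]
    rw [mul_assoc (ad i), hta, mul_one] at h4
    exact eq_neg_of_add_eq_zero_left h4
  have dM : ∀ j, MD (Mi G A θ j) x (fun i =>
      (((td i x * Γ j x + t x * Matrix.of (fun k l => pd i (Chr G j l k) x)) * a x
        + t x * Γ j x * (-(a x * td i x * a x))) -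
      (tdd i j * a x + td j x * (-(a x * td i x * a x))))) := fun j => by
    have h1 := ((dθ.mul (dΓ j)).mul dA).sub ((dtd j).mul dA)
    have h2 : (fun y => t y * Γ j y * a y - td j y * a y) = Mi G A θ j := funext fun y => (hM j y).symm
    rw [h2] at h1
    simp only [had] at h1
    exact h1
  have hsymm : ∀ i j, tdd i j = tdd j i := fun i j => by
    ext c d
    exact pd_symm (hθs d c) hx i j
  unfold Fc
  rw [fderiv_Bm G A θ x _ dM, fderiv_Bm G A θ x _ dM, Bm_app, Bm_app]
  show LL _ - LL _ + (LL _) * (LL _) - (LL _) * (LL _) = LL _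
  rw [← map_mul, ← map_mul, ← map_sub, ← map_add, ← map_sub]
  congr 1
  have E1 : (∑ i, u i • Mi G A θ i x) * (∑ j, v j • Mi G A θ j x) =
      ∑ i, ∑ j, (u i * v j) • (Mi G A θ i x * Mi G A θ j x) := by
    rw [Finset.sum_mul_sum]
    refine Finset.sum_congr rfl fun i _ => Finset.sum_congr rfl fun j _ => ?_
    rw [smul_mul_smul_comm]
  have E2 : (∑ j, v j • Mi G A θ j x) * (∑ i, u i • Mi G A θ i x) =
      ∑ i, ∑ j, (u i * v j) • (Mi G A θ j x * Mi G A θ i x) := by
    rw [Finset.sum_mul_sum, Finset.sum_comm]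
    refine Finset.sum_congr rfl fun i _ => Finset.sum_congr rfl fun j _ => ?_
    rw [smul_mul_smul_comm, mul_comm (v j)]
  have E3 : (θ x).transpose * Matrix.of (fun l k => ∑ i, ∑ j, Rup G i j k l x * u i * v j)
        * (A x).transpose = ∑ i, ∑ j, (u i * v j) •
        (t x * Matrix.of (fun l k => Rup G i j k l x) * a x) := by
    have : (Matrix.of (fun l k => ∑ i, ∑ j, Rup G i j k l x * u i * v j) : Mat n) =
        ∑ i, ∑ j, (u i * v j) • Matrix.of (fun l k => Rup G i j k l x) := by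
      ext l k
      simp only [Matrix.of_apply, Matrix.sum_apply, Matrix.smul_apply, smul_eq_mul]
      exact Finset.sum_congr rfl fun i _ => Finset.sum_congr rfl fun j _ => by ring
    rw [this, Finset.mul_sum, Finset.sum_mul]
    refine Finset.sum_congr rfl fun i _ => ?_
    rw [Finset.mul_sum, Finset.sum_mul]
    refine Finset.sum_congr rfl fun j _ => ?_
    rw [mul_smul_comm, smul_mul_assoc]
  rw [E1, E2, E3]
  rw [Finset.sum_comm (f := fun i j => (u j * v i) • _)]
  rw [← Finset.sum_sub_distrib, ← Finset.sum_add_distrib, ← Finset.sum_sub_distrib]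
  refine Finset.sum_congr rfl fun i _ => ?_
  rw [← Finset.sum_sub_distrib, ← Finset.sum_add_distrib, ← Finset.sum_sub_distrib]
  refine Finset.sum_congr rfl fun j _ => ?_
  rw [mul_comm (v j) (u i), ← smul_sub, ← smul_add, ← smul_sub]
  congr 1
  rw [hM i x, hM j x, hsymm i j, mat_id _ _ _ _ _ _ _ _ _ (hat x)]
  congr 2
  ext l k
  simp only [Matrix.sub_apply, Matrix.add_apply, Matrix.of_apply, Matrix.mul_apply, hΓ, Rup,
    Finset.sum_sub_distrib]
  have e1 : ∑ m, Chr G i m l x * Chr G j k m x = ∑ m, Chr G j k m x * Chr G i m l x :=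
    Finset.sum_congr rfl fun m _ => mul_comm _ _
  have e2 : ∑ m, Chr G j m l x * Chr G i k m x = ∑ m, Chr G i k m x * Chr G j m l x :=
    Finset.sum_congr rfl fun m _ => mul_comm _ _
  rw [e1, e2]
  ring

end

end Pool.Agent.Helper2.RFn
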