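import Pool.Agent.Helper64.RFn.GoalsS
import Pool.Agent.Helper2.RFn.CURn

open MeasureTheory Set Matrix

open scoped RealInnerProductSpace

namespace Pool.Agent.Helper2.RFn

open Pool.Agent.Helper47.RFn (EE MF pd Hom0 Sm IsMetric cyl Chr Rup Rm ip gvol Tan nn)
open Pool.Agent.Helper64.RFn

noncomputable section

variable {n : ℕ}

theorem pd_congr {f g : EE n → ℝ} {x : EE n} (hx : x ≠ 0) (h : ∀ y, y ≠ 0 → f y = g y)
    (i : Fin (n + 1)) : pd i f x = pd i g x := by
  unfold pd
  have : f =ᶠ[nhds x] g := by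
    filter_upwards [isOpen_compl_singleton.mem_nhds hx] with y hy
    exact h y hy
  rw [this.fderiv_eq]

theorem dcoord (a : Fin (n + 1)) (x : EE n) : DifferentiableAt ℝ (fun y : EE n => y a) x :=
  (EuclideanSpace.proj a : EE n →L[ℝ] ℝ).differentiableAt

theorem pd_coord (i a : Fin (n + 1)) (x : EE n) :
    pd i (fun y : EE n => y a) x = if i = a then 1 else 0 := by
  unfold pd
  have : fderiv ℝ (fun y : EE n => y a) x = (EuclideanSpace.proj a : EE n →L[ℝ] ℝ) :=
    (EuclideanSpace.proj a : EE n →L[ℝ] ℝ).fderiv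
  rw [this]
  show (EuclideanSpace.single i (1:ℝ) : EE n) a = _
  simp [Pi.single_apply, eq_comm]

theorem dns (x : EE n) : DifferentiableAt ℝ (fun y : EE n => ‖y‖ ^ 2) x :=
  (contDiff_norm_sq ℝ (n := 1)).differentiable (by norm_num) x

theorem pd_ns (i : Fin (n + 1)) (x : EE n) : pd i (fun y : EE n => ‖y‖ ^ 2) x = 2 * x i := by
  have h1 : (fun y : EE n => ‖y‖ ^ 2) = fun y => ∑ a, y a * y a := by
    funext y
    rw [EuclideanSpace.norm_sq_eq]
    exact Finset.sum_congr rfl fun a _ => by rw [Real.norm_eq_abs, sq_abs, sq]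
  rw [h1, pd_sum (f := fun a (y : EE n) => y a * y a) _
    (fun a _ => (dcoord a x).mul (dcoord a x))]
  have h2 : ∀ a, pd i (fun y : EE n => y a * y a) x = 2 * ((if i = a then 1 else 0) * x a) := fun a => by
    rw [pd_mul (dcoord a x) (dcoord a x), pd_coord]
    ring
  rw [Finset.sum_congr rfl fun a _ => h2 a, ← Finset.mul_sum]
  simp

theorem euler {f : EE n → ℝ} {x : EE n} (hd : DifferentiableAt ℝ f x)
    (h : ∀ r : ℝ, 0 < r → f (r • x) = r⁻¹ * f x) : ∑ i, x i * pd i f x = - f x := by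
  rw [← fderiv_pd]
  have h1 : HasDerivAt (fun r : ℝ => f (r • x)) (fderiv ℝ f x x) 1 := by
    have h2 : HasDerivAt (fun r : ℝ => r • x) x 1 := by
      simpa using (hasDerivAt_id (1:ℝ)).smul_const x
    have h3 : HasFDerivAt f (fderiv ℝ f x) ((1:ℝ) • x) := by rw [one_smul]; exact hd.hasFDerivAt
    exact h3.comp_hasDerivAt (1:ℝ) h2
  have h4 : HasDerivAt (fun r : ℝ => r⁻¹ * f x) (-f x) 1 := by
    have := (hasDerivAt_inv (one_ne_zero : (1:ℝ) ≠ 0)).mul_const (f x)
    simpa using this
  have h5 : (fun r : ℝ => f (r • x)) =ᶠ[nhds 1] fun r => r⁻¹ * f x := by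
    filter_upwards [lt_mem_nhds (zero_lt_one : (0:ℝ) < 1)] with r hr
    exact h r hr
  exact (h1.congr_of_eventuallyEq h5.symm).unique h4

/-- contraction with the coordinate under a derivative -/
theorem pd_contr {f : Fin (n + 1) → EE n → ℝ} {x : EE n} (hd : ∀ a, DifferentiableAt ℝ (f a) x)
    (i : Fin (n + 1)) :
    pd i (fun y => ∑ a, y a * f a y) x = f i x + ∑ a, x a * pd i (f a) x := by
  rw [pd_sum (f := fun a y => y a * f a y) _ (fun a _ => (dcoord a x).mul (hd a))]
  have : ∀ a, pd i (fun y => y a * f a y) x =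
      (if i = a then 1 else 0) * f a x + x a * pd i (f a) x := fun a => by
    rw [pd_mul (dcoord a x) (hd a), pd_coord]
  rw [Finset.sum_congr rfl fun a _ => this a, Finset.sum_add_distrib]
  simp

theorem dinv {x : EE n} (hx : x ≠ 0) :
    HasFDerivAt (fun y : EE n => (‖y‖ ^ 2)⁻¹)
      ((-((‖x‖ ^ 2) ^ 2)⁻¹) • fderiv ℝ (fun y : EE n => ‖y‖ ^ 2) x) x := by
  have hs : ‖x‖ ^ 2 ≠ 0 := by
    have := norm_pos_iff.2 hx
    positivity
  exact (hasDerivAt_inv hs).comp_hasFDerivAt x (dns x).hasFDerivAt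

theorem pd_inv (i : Fin (n + 1)) {x : EE n} (hx : x ≠ 0) :
    pd i (fun y : EE n => (‖y‖ ^ 2)⁻¹) x = -(2 * x i) * ((‖x‖ ^ 2) ^ 2)⁻¹ := by
  unfold pd
  rw [(dinv hx).fderiv]
  have e3 : fderiv ℝ (fun y : EE n => ‖y‖ ^ 2) x (EuclideanSpace.single i 1) = 2 * x i := pd_ns i x
  show -((‖x‖ ^ 2) ^ 2)⁻¹ * fderiv ℝ (fun y : EE n => ‖y‖ ^ 2) x (EuclideanSpace.single i 1) = _
  rw [e3]
  ring

theorem pd_proj (i j k : Fin (n + 1)) {x : EE n} (hx : x ≠ 0) :
    pd i (fun y : EE n => (if j = k then (1:ℝ) else 0) - 2 * (y j * y k) / ‖y‖ ^ 2) x =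
      -(2 * ((if i = j then 1 else 0) * x k + x j * (if i = k then 1 else 0)) / ‖x‖ ^ 2
        - 4 * (x i * x j * x k) / (‖x‖ ^ 2) ^ 2) := by
  have hs : ‖x‖ ^ 2 ≠ 0 := by
    have := norm_pos_iff.2 hx
    positivity
  have h1 : (fun y : EE n => (if j = k then (1:ℝ) else 0) - 2 * (y j * y k) / ‖y‖ ^ 2) =
      fun y : EE n => (if j = k then (1:ℝ) else 0) - (2 * (y j * y k)) * (‖y‖ ^ 2)⁻¹ := by
    funext y; rw [div_eq_mul_inv]
  have d1 : DifferentiableAt ℝ (fun y : EE n => y j * y k) x := (dcoord j x).mul (dcoord k x)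
  have d2 : DifferentiableAt ℝ (fun y : EE n => 2 * (y j * y k)) x := d1.const_mul 2
  have d3 : DifferentiableAt ℝ (fun y : EE n => (‖y‖ ^ 2)⁻¹) x := (dinv hx).differentiableAt
  have d4 : DifferentiableAt ℝ (fun y : EE n => (2 * (y j * y k)) * (‖y‖ ^ 2)⁻¹) x := d2.mul d3
  rw [h1, pd_sub (differentiableAt_const _) d4, pd_mul d2 d3,
    pd_mul (f := fun _ => (2:ℝ)) (differentiableAt_const _) d1, pd_mul (dcoord j x) (dcoord k x),
    pd_coord, pd_coord, pd_inv i hx]
  have h0 : ∀ c : ℝ, pd i (fun _ : EE n => c) x = 0 := fun c => by simp [pd]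
  rw [h0, h0]
  field_simp
  ring

/-- curvature type expression -/
def RR (C : Fin (n + 1) → Fin (n + 1) → Fin (n + 1) → EE n → ℝ) (x : EE n)
    (i j k l : Fin (n + 1)) : ℝ :=
  pd i (C j k l) x - pd j (C i k l) x + ∑ m, (C j k m x * C i m l x - C i k m x * C j m l x)

theorem radgen (C : Fin (n + 1) → Fin (n + 1) → Fin (n + 1) → EE n → ℝ) (x : EE n) (hx : x ≠ 0)
    (hd : ∀ i j k, DifferentiableAt ℝ (C i j k) x)
    (hs : ∀ i j k y, y ≠ 0 → C i j k y = C j i k y)
    (h2 : ∀ i k y, y ≠ 0 → ∑ j, y j * C i j k y = -(if i = k then 1 else 0))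
    (h3 : ∀ i j y, y ≠ 0 → ∑ k, y k * C i j k y =
      (if i = j then 1 else 0) - 2 * (y i * y j) / ‖y‖ ^ 2)
    (h4 : ∀ i j k (r : ℝ), 0 < r → C i j k (r • x) = r⁻¹ * C i j k x) :
    (∀ j k l, ∑ i, x i * RR C x i j k l = 0) ∧
    (∀ i k l, ∑ j, x j * RR C x i j k l = 0) ∧
    (∀ i j l, ∑ k, x k * RR C x i j k l = 0) ∧
    (∀ i j k, ∑ l, x l * RR C x i j k l = 0) := by
  have h2' : ∀ i k, ∑ j, x j * C i j k x = -(if i = k then 1 else 0) := fun i k => h2 i k x hx
  have h2'' : ∀ j k, ∑ i, x i * C i j k x = -(if j = k then 1 else 0) := fun j k => by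
    rw [← h2' j k]
    exact Finset.sum_congr rfl fun i _ => by rw [hs i j k x hx]
  have h3' : ∀ i j, ∑ k, x k * C i j k x = (if i = j then 1 else 0) - 2 * (x i * x j) / ‖x‖ ^ 2 :=
    fun i j => h3 i j x hx
  have eu : ∀ j k l, ∑ i, x i * pd i (C j k l) x = -C j k l x := fun j k l =>
    euler (hd j k l) (fun r hr => h4 j k l r hr)
  -- derivative of the contraction identities
  have d2 : ∀ i a k, C a i k x + ∑ j, x j * pd i (C a j k) x = 0 := fun i a k => by
    rw [← pd_contr (f := fun j => C a j k) (fun j => hd a j k) i,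
      pd_congr hx (fun y hy => h2 a k y hy) i]
    simp [pd]
  have d2' : ∀ i a k, C i a k x + ∑ j, x j * pd i (C j a k) x = 0 := fun i a k => by
    have e : ∀ j, pd i (C j a k) x = pd i (C a j k) x := fun j =>
      pd_congr hx (fun y hy => hs j a k y hy) i
    rw [Finset.sum_congr rfl fun j _ => by rw [e j], hs i a k x hx]
    exact d2 i a k
  have d3 : ∀ i a b, C a b i x + ∑ k, x k * pd i (C a b k) x =
      -(2 * ((if i = a then 1 else 0) * x b + x a * (if i = b then 1 else 0)) / ‖x‖ ^ 2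
        - 4 * (x i * x a * x b) / (‖x‖ ^ 2) ^ 2) := fun i a b => by
    rw [← pd_contr (f := fun k => C a b k) (fun k => hd a b k) i,
      pd_congr hx (fun y hy => h3 a b y hy) i, pd_proj i a b hx]
  have A1 : ∀ j k l, ∑ i, x i * RR C x i j k l = 0 := fun j k l => by
    have e1 : ∑ i, x i * RR C x i j k l = ∑ i, x i * pd i (C j k l) x -
        ∑ i, x i * pd j (C i k l) x + (∑ m, C j k m x * (∑ i, x i * C i m l x) -
          ∑ m, (∑ i, x i * C i k m x) * C j m l x) := by
      simp only [RR, Finset.mul_sum, Finset.sum_mul, mul_add, mul_sub, Finset.sum_add_distrib,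
        Finset.sum_sub_distrib]
      congr 1
      congr 1
      · rw [Finset.sum_comm]
        exact Finset.sum_congr rfl fun m _ => Finset.sum_congr rfl fun i _ => by ring
      · rw [Finset.sum_comm]
        exact Finset.sum_congr rfl fun m _ => Finset.sum_congr rfl fun i _ => by ring
    rw [e1, eu]
    simp only [h2'']
    have e2 := d2' j k l
    simp
    linarith
  refine ⟨A1, ?_, ?_, ?_⟩
  · intro i k l
    have e1 : ∀ j, RR C x i j k l = -RR C x j i k l := fun j => by
      simp only [RR, Finset.sum_sub_distrib]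
      ring
    rw [Finset.sum_congr rfl fun j _ => by rw [e1 j]]
    simp only [mul_neg, Finset.sum_neg_distrib, A1 i k l, neg_zero]
  · intro i j l
    have e1 : ∑ k, x k * RR C x i j k l = ∑ k, x k * pd i (C j k l) x -
        ∑ k, x k * pd j (C i k l) x + (∑ m, (∑ k, x k * C j k m x) * C i m l x -
          ∑ m, (∑ k, x k * C i k m x) * C j m l x) := by
      simp only [RR, Finset.mul_sum, Finset.sum_mul, mul_add, mul_sub, Finset.sum_add_distrib,
        Finset.sum_sub_distrib]
      congr 1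
      congr 1
      · rw [Finset.sum_comm]
        exact Finset.sum_congr rfl fun m _ => Finset.sum_congr rfl fun i _ => by ring
      · rw [Finset.sum_comm]
        exact Finset.sum_congr rfl fun m _ => Finset.sum_congr rfl fun i _ => by ring
    rw [e1]
    simp only [h2']
    have e2 := d2 i j l
    have e3 := d2 j i l
    have e4 := hs i j l x hx
    simp
    linarith
  · intro i j k
    have e1 : ∑ l, x l * RR C x i j k l = ∑ l, x l * pd i (C j k l) x -
        ∑ l, x l * pd j (C i k l) x + (∑ m, C j k m x * (∑ l, x l * C i m l x) -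
          ∑ m, C i k m x * (∑ l, x l * C j m l x)) := by
      simp only [RR, Finset.mul_sum, mul_add, mul_sub, Finset.sum_add_distrib,
        Finset.sum_sub_distrib]
      congr 1
      congr 1
      · rw [Finset.sum_comm]
        exact Finset.sum_congr rfl fun m _ => Finset.sum_congr rfl fun i _ => by ring
      · rw [Finset.sum_comm]
        exact Finset.sum_congr rfl fun m _ => Finset.sum_congr rfl fun i _ => by ring
    have f : ∀ a b c : Fin (n + 1), ∑ m, C a b m x * ((if c = m then 1 else 0)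
        - 2 * (x c * x m) / ‖x‖ ^ 2) = C a b c x - 2 * x c / ‖x‖ ^ 2 *
          ((if a = b then 1 else 0) - 2 * (x a * x b) / ‖x‖ ^ 2) := fun a b c => by
      rw [← h3' a b, Finset.mul_sum]
      have : C a b c x = ∑ m, C a b m x * (if c = m then 1 else 0) := by simp
      rw [this, ← Finset.sum_sub_distrib]
      exact Finset.sum_congr rfl fun m _ => by ring
    rw [e1]
    simp only [h3', f]
    have e2 := d3 i j k
    have e3 := d3 j i k
    have e4 : (if j = i then (1:ℝ) else 0) = if i = j then 1 else 0 := by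
      simp only [eq_comm]
    rw [e4] at e3
    linear_combination e2 - e3

theorem rad0 (chr : CHRn) (cyc : CYCn) : RAD0 := by
  intro n G hG x hx
  obtain ⟨ca, -, cc, cd, ce, cf⟩ := chr n G hG
  have hx2 : ∀ y : EE n, y ≠ 0 → ‖y‖ ^ 2 ≠ 0 := fun y hy => by
    have := norm_pos_iff.2 hy
    positivity
  have hns : ∀ y : EE n, ‖y‖ ^ 2 = ∑ a, y a * y a := fun y => by
    rw [EuclideanSpace.norm_sq_eq]
    exact Finset.sum_congr rfl fun a _ => by rw [Real.norm_eq_abs, sq_abs, sq]
  have hGs : ∀ i j y, G y i j = G y j i := fun i j y => by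
    have := (hG.pos y).isHermitian
    have h := congrFun (congrFun this i) j
    simpa using h.symm
  have key := radgen (Chr (cyl G)) x hx ?_ ?_ ?_ ?_ ?_
  · exact key
  · intro i j k
    have h1 : ContDiffOn ℝ (⊤ : ℕ∞) (fun y => Chr G i j k y
      - (y i * (if j = k then 1 else 0) + y j * (if i = k then 1 else 0) - G y i j * y k) / ‖y‖ ^ 2)
        {0}ᶜ := by
      have hc : ∀ a : Fin (n + 1), ContDiffOn ℝ (⊤ : ℕ∞) (fun y : EE n => y a) {0}ᶜ := fun a =>
        (EuclideanSpace.proj a : EE n →L[ℝ] ℝ).contDiff.contDiffOn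
      refine (cf i j k).sub (ContDiffOn.div ?_ (contDiff_norm_sq ℝ).contDiffOn
        (fun y hy => hx2 y hy))
      exact (((hc i).mul contDiffOn_const).add ((hc j).mul contDiffOn_const)).sub
        ((hG.sm i j).cd.mul (hc k))
    have h2 := smooth_diff h1 hx
    refine h2.congr_of_eventuallyEq ?_
    filter_upwards [isOpen_compl_singleton.mem_nhds hx] with y hy
    exact cyc n G hG i j k y hy
  · intro i j k y hy
    rw [cyc n G hG i j k y hy, cyc n G hG j i k y hy, ca i j k y, hGs i j y]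
    ring
  · intro i k y hy
    have h1 : ∀ j, y j * Chr (cyl G) i j k y = Chr G i j k y * y j -
        (y i * (if j = k then y j else 0) + (y j * y j) * (if i = k then 1 else 0) -
          (G y i j * y j) * y k) * (‖y‖ ^ 2)⁻¹ := fun j => by
      rw [cyc n G hG i j k y hy, div_eq_mul_inv]
      split_ifs <;> ring
    rw [Finset.sum_congr rfl fun j _ => h1 j, Finset.sum_sub_distrib, ← Finset.sum_mul,
      Finset.sum_sub_distrib, Finset.sum_add_distrib, ← Finset.mul_sum, ← Finset.sum_mul,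
      ← Finset.sum_mul, cc i k y hy, ← hns, hG.rad y i]
    have := hx2 y hy
    simp
    split_ifs <;> field_simp <;> ring
  · intro i j y hy
    have h1 : ∀ k, y k * Chr (cyl G) i j k y = y k * Chr G i j k y -
        (y i * (if j = k then y k else 0) + y j * (if i = k then y k else 0) -
          G y i j * (y k * y k)) * (‖y‖ ^ 2)⁻¹ := fun k => by
      rw [cyc n G hG i j k y hy, div_eq_mul_inv]
      split_ifs <;> ring
    rw [Finset.sum_congr rfl fun k _ => h1 k, Finset.sum_sub_distrib, ← Finset.sum_mul,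
      Finset.sum_sub_distrib, Finset.sum_add_distrib, ← Finset.mul_sum, ← Finset.mul_sum,
      ← Finset.mul_sum, cd i j y hy, ← hns]
    have := hx2 y hy
    simp
    split_ifs <;> field_simp <;> ring
  · intro i j k r hr
    have hrx : r • x ≠ 0 := smul_ne_zero hr.ne' hx
    have hhom : G (r • x) i j = G x i j := (hG.sm i j).hom r x hr
    rw [cyc n G hG i j k _ hrx, cyc n G hG i j k x hx, ce i j k r x hr hx, hhom,
      norm_smul, Real.norm_eq_abs, abs_of_pos hr]
    have := hx2 x hx
    simp only [PiLp.smul_apply, smul_eq_mul]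
    field_simp

end

end Pool.Agent.Helper2.RFn
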