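import Pool.Agent.Helper47.RFn.GoalsB

namespace Pool.Agent.Helper47.RFn

open Finset

noncomputable section

namespace INV

/-- the heat operator as a linear map -/
def HopL {n : ℕ} {T : ℝ} (F : FB n T) : F.B →ₗ[ℝ] F.B :=
  (F.D : F.B →ₗ[ℝ] F.B) - ∑ a, (F.H a : F.B →ₗ[ℝ] F.B) ∘ₗ (F.H a : F.B →ₗ[ℝ] F.B)

theorem Hop_eq {n : ℕ} {T : ℝ} (F : FB n T) (f : F.B) : F.Hop f = HopL F f := by
  simp [HopL, FB.Hop, FB.Lap, LinearMap.sum_apply]

def cz {n : ℕ} (z w : Fin n → ℂ) (i j k l : Fin n) : ℝ := (z i * w j * star (z k) * star (w l)).re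

def fq {n : ℕ} {T : ℝ} (F : FB n T) (S : Ix n → Ix n → Ix n → Ix n → F.B) (z w : Ix n → ℂ) : F.B :=
  ∑ i, ∑ j, ∑ k, ∑ l, cz z w i j k l • S i j k l

theorem qf_cz {n : ℕ} (R : T4 n) (z w : Fin n → ℂ) :
    qf R z w = ∑ i, ∑ j, ∑ k, ∑ l, R i j k l * cz z w i j k l := by
  unfold qf cz
  simp only [Complex.re_sum]
  refine sum_congr rfl fun i _ => sum_congr rfl fun j _ => sum_congr rfl fun k _ =>
    sum_congr rfl fun l _ => ?_
  rw [mul_assoc, mul_assoc, mul_assoc, Complex.re_ofReal_mul, ← mul_assoc, ← mul_assoc]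

theorem ev_fq {n : ℕ} {T : ℝ} (F : FB n T) (S : Ix n → Ix n → Ix n → Ix n → F.B) (z w : Ix n → ℂ)
    (x : F.Z) (t : TI T) :
    F.ev x t (fq F S z w) = qf (fun i j k l => F.ev x t (S i j k l)) z w := by
  rw [qf_cz]
  simp only [fq, map_sum, map_smul, smul_eq_mul]
  refine sum_congr rfl fun i _ => sum_congr rfl fun j _ => sum_congr rfl fun k _ =>
    sum_congr rfl fun l _ => mul_comm _ _

theorem Hop_fq {n : ℕ} {T : ℝ} (F : FB n T) (S : Ix n → Ix n → Ix n → Ix n → F.B) (z w : Ix n → ℂ) :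
    F.Hop (fq F S z w) = fq F (fun i j k l => F.Hop (S i j k l)) z w := by
  simp only [Hop_eq, fq, map_sum, map_smul]

def fr {n : ℕ} {T : ℝ} (F : FB n T) (A : Ix n → Ix n → F.B) (v : Ix n → ℝ) : F.B :=
  ∑ i, ∑ j, (v i * v j) • A i j

theorem ev_fr {n : ℕ} {T : ℝ} (F : FB n T) (A : Ix n → Ix n → F.B) (v : Ix n → ℝ)
    (x : F.Z) (t : TI T) :
    F.ev x t (fr F A v) = rq (fun i j => F.ev x t (A i j)) v := by
  unfold rq
  simp only [fr, map_sum, map_smul, smul_eq_mul]
  refine sum_congr rfl fun i _ => sum_congr rfl fun j _ => by ring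

theorem Hop_fr {n : ℕ} {T : ℝ} (F : FB n T) (A : Ix n → Ix n → F.B) (v : Ix n → ℝ) :
    F.Hop (fr F A v) = fr F (fun i j => F.Hop (A i j)) v := by
  simp only [Hop_eq, fr, map_sum, map_smul]

/-- the form of the unit sphere -/
theorem qI {n : ℕ} (z w : Fin n → ℂ) : qf (Id4 n) z w =
    (∑ i, Complex.normSq (z i)) * (∑ i, Complex.normSq (w i)) -
      Complex.normSq (∑ i, z i * star (w i)) := by
  have h1 : ∀ i j k l, Id4 n i j k l = (if i = k then (1:ℝ) else 0) * (if j = l then 1 else 0) -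
      (if j = k then 1 else 0) * (if i = l then 1 else 0) := fun i j k l => by
    simp only [Id4, wdg, Matrix.one_apply]
    ring
  unfold qf
  have h2 : (∑ a, ∑ b, ∑ c, ∑ d, (Id4 n a b c d : ℂ) * z a * w b * star (z c) * star (w d)) =
      (∑ a, z a * star (z a)) * (∑ b, w b * star (w b)) -
      (∑ a, z a * star (w a)) * (∑ b, w b * star (z b)) := by
    simp only [h1, Complex.ofReal_sub, Complex.ofReal_mul, sub_mul, Finset.sum_sub_distrib,
      Finset.sum_mul_sum]
    congr 1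
    · refine sum_congr rfl fun a _ => sum_congr rfl fun b _ => ?_
      simp only [apply_ite Complex.ofReal, Complex.ofReal_one, Complex.ofReal_zero, ite_mul, mul_ite, one_mul,
        zero_mul, mul_one, mul_zero, Finset.sum_ite_eq, Finset.mem_univ, if_true]
      ring
    · refine sum_congr rfl fun a _ => sum_congr rfl fun b _ => ?_
      simp only [apply_ite Complex.ofReal, Complex.ofReal_one, Complex.ofReal_zero, ite_mul, mul_ite, one_mul,
        zero_mul, mul_one, mul_zero, Finset.sum_ite_eq, Finset.mem_univ, if_true]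
      ring
  rw [h2]
  have h3 : ∀ z : Fin n → ℂ, (∑ a, z a * star (z a)) = ((∑ i, Complex.normSq (z i) : ℝ) : ℂ) := by
    intro z
    rw [Complex.ofReal_sum]
    exact sum_congr rfl fun a _ => Complex.mul_conj _
  have h4 : (∑ b, w b * star (z b)) = star (∑ a, z a * star (w a)) := by
    rw [star_sum]
    exact sum_congr rfl fun a _ => by simp [mul_comm]
  rw [h3, h3, h4]
  have h5 : ∀ u : ℂ, u * star u = ((Complex.normSq u : ℝ) : ℂ) := fun u => Complex.mul_conj u
  rw [h5, ← Complex.ofReal_mul, ← Complex.ofReal_sub, Complex.ofReal_re]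

theorem normSq_iota {n : ℕ} {ν : Ix n → ℝ} {ι : Ix n → Fin n → ℝ} (h : Iso ν ι) (z : Fin n → ℂ) :
    ∑ i, Complex.normSq (∑ a, (ι i a : ℂ) * z a) = ∑ a, Complex.normSq (z a) := by
  have h1 : ∀ u : ℂ, ((Complex.normSq u : ℝ) : ℂ) = u * star u := fun u => (Complex.mul_conj u).symm
  have : ((∑ i, Complex.normSq (∑ a, (ι i a : ℂ) * z a) : ℝ) : ℂ) =
      ((∑ a, Complex.normSq (z a) : ℝ) : ℂ) := by
    simp only [Complex.ofReal_sum, h1]
    calc ∑ i, (∑ a, (ι i a : ℂ) * z a) * star (∑ a, (ι i a : ℂ) * z a)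
        = ∑ i, ∑ a, ∑ b, ((ι i a * ι i b : ℝ) : ℂ) * (z a * star (z b)) := by
          refine sum_congr rfl fun i _ => ?_
          rw [star_sum, Finset.sum_mul_sum]
          refine sum_congr rfl fun a _ => sum_congr rfl fun b _ => ?_
          simp
          ring
      _ = ∑ a, ∑ b, ((∑ i, ι i a * ι i b : ℝ) : ℂ) * (z a * star (z b)) := by
          rw [Finset.sum_comm]
          refine sum_congr rfl fun a _ => ?_
          rw [Finset.sum_comm]
          refine sum_congr rfl fun b _ => ?_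
          rw [Complex.ofReal_sum, Finset.sum_mul]
      _ = _ := by
          refine sum_congr rfl fun a _ => ?_
          simp only [h.orth, apply_ite Complex.ofReal, Complex.ofReal_one, Complex.ofReal_zero,
            ite_mul, one_mul, zero_mul, Finset.sum_ite_eq, Finset.mem_univ, if_true]
  exact_mod_cast this

theorem nrm_iota {n : ℕ} {ν : Ix n → ℝ} {ι : Ix n → Fin n → ℝ} (h : Iso ν ι) (v : Fin n → ℝ) :
    nrm (fun i => ∑ a, ι i a * v a) = nrm v := by
  unfold nrm
  calc ∑ i, (∑ a, ι i a * v a)^2 = ∑ i, ∑ a, ∑ b, (ι i a * ι i b) * (v a * v b) := by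
        refine sum_congr rfl fun i _ => ?_
        rw [sq, Finset.sum_mul_sum]
        refine sum_congr rfl fun a _ => sum_congr rfl fun b _ => ?_
        ring
    _ = ∑ a, ∑ b, (∑ i, ι i a * ι i b) * (v a * v b) := by
        rw [Finset.sum_comm]
        refine sum_congr rfl fun a _ => ?_
        rw [Finset.sum_comm]
        refine sum_congr rfl fun b _ => ?_
        rw [Finset.sum_mul]
    _ = _ := by
        refine sum_congr rfl fun a _ => ?_
        simp only [h.orth, ite_mul, one_mul, zero_mul, Finset.sum_ite_eq, Finset.mem_univ, if_true]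
        ring

theorem nu_iota {n : ℕ} {ν : Ix n → ℝ} {ι : Ix n → Fin n → ℝ} (h : Iso ν ι) (v : Fin n → ℝ) :
    ∑ i, ν i * (∑ a, ι i a * v a) = 0 := by
  calc ∑ i, ν i * (∑ a, ι i a * v a) = ∑ i, ∑ a, (ν i * ι i a) * v a := by
        refine sum_congr rfl fun i _ => ?_
        rw [Finset.mul_sum]
        exact sum_congr rfl fun a _ => by ring
    _ = ∑ a, (∑ i, ν i * ι i a) * v a := by
        rw [Finset.sum_comm]
        exact sum_congr rfl fun a _ => by rw [Finset.sum_mul]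
    _ = 0 := by simp [h.perp]

theorem ev_I {n : ℕ} {T : ℝ} (F : FB n T) (z : F.Z) (t : TI T) :
    (fun i j k l => F.ev z t (F.I i j k l)) = wdg (Pm (F.nv z t)) (Pm (F.nv z t)) := by
  have h : ∀ i j, F.ev z t (F.P i j) = Pm (F.nv z t) i j := fun i j => by
    simp only [FB.P, FB.dl, Pm, FB.nv, map_sub, map_mul]
    split_ifs <;> simp
  funext i j k l
  simp only [FB.I, map_sub, map_mul, h, wdg]
  ring

theorem ev_P {n : ℕ} {T : ℝ} (F : FB n T) (z : F.Z) (t : TI T) (i j : Ix n) :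
    F.ev z t (F.P i j) = Pm (F.nv z t) i j := by
  simp only [FB.P, FB.dl, Pm, FB.nv, map_sub, map_mul]
  split_ifs <;> simp

theorem rq_Pm {n : ℕ} (ν v : Ix n → ℝ) : rq (Pm ν) v = nrm v - (∑ i, ν i * v i)^2 := by
  unfold rq Pm nrm
  have h1 : (∑ i, ν i * v i)^2 = ∑ i, ∑ j, (ν i * ν j) * v i * v j := by
    rw [sq, Finset.sum_mul_sum]
    exact sum_congr rfl fun i _ => sum_congr rfl fun j _ => by ring
  rw [h1, ← Finset.sum_sub_distrib]
  refine sum_congr rfl fun i _ => ?_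
  have : v i ^ 2 = ∑ j, (if i = j then (1:ℝ) else 0) * v i * v j := by
    simp only [ite_mul, one_mul, zero_mul, Finset.sum_ite_eq, Finset.mem_univ, if_true]
    ring
  rw [this, ← Finset.sum_sub_distrib]
  exact sum_congr rfl fun j _ => by ring

theorem rq_smul_vec {n : ℕ} (A : M2 n) (c : ℝ) (v : Fin n → ℝ) : rq A (fun i => c * v i) = c^2 * rq A v := by
  unfold rq
  rw [Finset.mul_sum]
  refine sum_congr rfl fun i _ => ?_
  rw [Finset.mul_sum]
  exact sum_congr rfl fun j _ => by ring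

theorem nrm_smul_vec {n : ℕ} (c : ℝ) (v : Fin n → ℝ) : nrm (fun i => c * v i) = c^2 * nrm v := by
  unfold nrm
  rw [Finset.mul_sum]
  exact sum_congr rfl fun i _ => by ring

theorem nrm_pos {n : ℕ} {v : Fin n → ℝ} (hv : v ≠ 0) : 0 < nrm v := by
  obtain ⟨i, hi⟩ : ∃ i, v i ≠ 0 := by
    by_contra h
    push Not at h
    exact hv (funext h)
  unfold nrm
  exact Finset.sum_pos' (fun j _ => sq_nonneg _) ⟨i, Finset.mem_univ _, by positivity⟩

theorem rq_zero {n : ℕ} (A : M2 n) : rq A (fun _ => 0) = 0 := by simp [rq]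

theorem nrm_zero {n : ℕ} : nrm (fun _ : Fin n => (0:ℝ)) = 0 := by simp [nrm]

variable {n : ℕ} {T : ℝ}

/-- the array `Sb` -/
def SS (F : FB n T) (a b : ℝ) (bet : F.B) : Ix n → Ix n → Ix n → Ix n → F.B :=
  fun i j k l => F.Sb a b bet i j k l

/-- its Ricci tensor -/
def RS (F : FB n T) (S : Ix n → Ix n → Ix n → Ix n → F.B) (i j : Ix n) : F.B := ∑ e, S i e j e

/-- its lam -/
def LS (F : FB n T) (S : Ix n → Ix n → Ix n → Ix n → F.B) : F.B :=
  (1 / (n:ℝ)) • ∑ i, RS F S i i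

def f2g (F : FB n T) (p : ℝ) (S : Ix n → Ix n → Ix n → Ix n → F.B) (v : Ix n → ℝ) : F.B :=
  fr F (fun i j => RS F S i j - p • (LS F S * F.P i j)) v

/-- the first part of the family -/
def f1 (F : FB n T) (a b : ℝ) (bet : F.B) (z w : Ix n → ℂ) : F.B :=
  fq F (SS F a b bet) z w + (1 - fq F F.I z w)

/-- the linear form of nu -/
def lnu (F : FB n T) (v : Ix n → ℝ) : F.B := ∑ i, v i • F.nu i

/-- the second part of the family -/
def f2 (F : FB n T) (a b p : ℝ) (bet : F.B) (v : Ix n → ℝ) : F.B :=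
  f2g F p (SS F a b bet) v + lnu F v * lnu F v

theorem ev_f1 (hRP2 : Goal_RP2) (hRP3 : Goal_RP3) (F : FB n T) (a b : ℝ) (bet : F.B) (x : F.Z)
    (t : TI T) (ι : Ix n → Fin n → ℝ) (hι : Iso (F.nv x t) ι) (s : T4 n)
    (h1 : pull ι (fun i j k l => F.ev x t (F.Sb a b bet i j k l)) = s)
    (h2 : Hor (F.nv x t) (fun i j k l => F.ev x t (F.Sb a b bet i j k l))) (z w : Ix n → ℂ) :
    F.ev x t (f1 F a b bet z w) =
      qf s (pullv ι z) (pullv ι w) + (1 - qf (Id4 n) (pullv ι z) (pullv ι w)) := by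
  obtain ⟨-, -, -, -, -, -, -, q, -⟩ := hRP2 n _ ι _ hι h2
  obtain ⟨e1, e2, -⟩ := hRP3 n _ ι hι
  obtain ⟨-, -, -, -, -, -, -, q', -⟩ := hRP2 n _ ι _ hι e2
  unfold f1
  rw [map_add, map_sub, map_one, ev_fq, ev_fq, ev_I, q' z w, e1]
  show qf (fun i j k l => F.ev x t (F.Sb a b bet i j k l)) z w + _ = _
  rw [q z w, h1]

theorem ev_f2g (hRP2 : Goal_RP2) (hRP3 : Goal_RP3) (F : FB n T) (p : ℝ) (x : F.Z)
    (t : TI T) (ι : Ix n → Fin n → ℝ) (hι : Iso (F.nv x t) ι) (s : T4 n)
    (S : Ix n → Ix n → Ix n → Ix n → F.B)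
    (h1 : pull ι (fun i j k l => F.ev x t (S i j k l)) = s)
    (h2 : Hor (F.nv x t) (fun i j k l => F.ev x t (S i j k l))) (v : Ix n → ℝ) :
    F.ev x t (f2g F p S v) =
      rq (Ric s) (pullr ι v) - p * lam s * nrm (pullr ι v) := by
  obtain ⟨-, -, -, -, l, -, -, -, q, -⟩ := hRP2 n _ ι _ hι h2
  obtain ⟨-, -, -, -, -, -, -, -, -, -, nn, -⟩ := hRP3 n _ ι hι
  rw [h1] at l q
  unfold f2g
  have e2 : F.ev x t (LS F S) = lam s := by
    rw [l]
    simp only [LS, RS, map_smul, map_sum, smul_eq_mul, Ric]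
    ring
  have e3 : ∀ i j, F.ev x t (RS F S i j) =
      Ric (fun i j k l => F.ev x t (S i j k l)) i j := fun i j => by
    simp only [RS, Ric, map_sum]
  rw [ev_fr, ← q v]
  have e4 : rq (fun i j => F.ev x t (RS F S i j - p • (LS F S * F.P i j))) v =
      rq (Ric (fun i j k l => F.ev x t (S i j k l))) v -
        p * lam s * rq (Pm (F.nv x t)) v := by
    unfold rq
    rw [Finset.mul_sum, ← Finset.sum_sub_distrib]
    refine sum_congr rfl fun i _ => ?_
    rw [Finset.mul_sum, ← Finset.sum_sub_distrib]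
    refine sum_congr rfl fun j _ => ?_
    show F.ev x t (RS F S i j - p • (LS F S * F.P i j)) * v i * v j = _
    rw [map_sub, map_smul, map_mul, e2, e3, ev_P, smul_eq_mul]
    ring
  rw [e4, rq_Pm, nn v]

theorem ev_f2 (hRP2 : Goal_RP2) (hRP3 : Goal_RP3) (F : FB n T) (a b p : ℝ) (bet : F.B) (x : F.Z)
    (t : TI T) (ι : Ix n → Fin n → ℝ) (hι : Iso (F.nv x t) ι) (s : T4 n)
    (h1 : pull ι (fun i j k l => F.ev x t (F.Sb a b bet i j k l)) = s)
    (h2 : Hor (F.nv x t) (fun i j k l => F.ev x t (F.Sb a b bet i j k l))) (v : Ix n → ℝ) :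
    F.ev x t (f2 F a b p bet v) =
      rq (Ric s) (pullr ι v) - p * lam s * nrm (pullr ι v) + (∑ i, F.nv x t i * v i)^2 := by
  unfold f2
  have e1 : F.ev x t (lnu F v) = ∑ i, F.nv x t i * v i := by
    simp only [lnu, map_sum, map_smul, smul_eq_mul, FB.nv]
    exact sum_congr rfl fun i _ => mul_comm _ _
  rw [map_add, map_mul, ev_f2g hRP2 hRP3 F p x t ι hι s (SS F a b bet) h1 h2 v, e1]
  ring

theorem Hop_f2g (hPRD : Goal_PRD) (F : FB n T) (hF : F.Base) (p : ℝ)
    (S : Ix n → Ix n → Ix n → Ix n → F.B) (v : Ix n → ℝ) :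
    F.Hop (f2g F p S v) = f2g F p (fun i j k l => F.Hop (S i j k l)) v := by
  obtain ⟨-, -, -, -, hP, -⟩ := (hPRD n T F).2 hF
  have h1 : ∀ i j, F.Hop (RS F S i j) = RS F (fun i j k l => F.Hop (S i j k l)) i j := fun i j => by
    simp only [RS, Hop_eq, map_sum]
  have h2 : F.Hop (LS F S) = LS F (fun i j k l => F.Hop (S i j k l)) := by
    have : ∀ i, HopL F (RS F S i i) = RS F (fun i j k l => F.Hop (S i j k l)) i i := fun i => by
      rw [← Hop_eq, h1]
    simp only [LS, Hop_eq, map_smul, map_sum, this]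
  unfold f2g
  rw [Hop_fr]
  congr 1
  funext i j
  have : F.Hop (RS F S i j - p • (LS F S * F.P i j)) =
      F.Hop (RS F S i j) - p • F.Hop (LS F S * F.P i j) := by
    simp only [Hop_eq, map_sub, map_smul]
  rw [this, hP, h1, h2]

theorem Hop_lnu (F : FB n T) (hF : F.Base) (v : Ix n → ℝ) : F.Hop (lnu F v * lnu F v) = 0 := by
  have h1 : F.D (lnu F v) = 0 := by
    simp [lnu, map_sum, hF.Dnu]
  have h2 : ∀ i, F.H i (lnu F v) = 0 := fun i => by
    simp [lnu, map_sum, hF.Hnu]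
  simp [FB.Hop, FB.Lap, h1, h2]

theorem Hop_f1 (hPRD : Goal_PRD) (F : FB n T) (hF : F.Base) (a b : ℝ) (bet : F.B)
    (z w : Ix n → ℂ) :
    F.Hop (f1 F a b bet z w) = fq F (fun i j k l => F.Hop (F.Sb a b bet i j k l)) z w := by
  obtain ⟨-, -, hI, hDI, -⟩ := (hPRD n T F).2 hF
  have h1 : F.Hop (1 : F.B) = 0 := by
    simp [FB.Hop, FB.Lap]
  have h2 : ∀ i j k l, F.Hop (F.I i j k l) = 0 := fun i j k l => by
    simp [FB.Hop, FB.Lap, hI, hDI]
  have h3 : F.Hop (f1 F a b bet z w) = F.Hop (fq F (SS F a b bet) z w) +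
      (F.Hop 1 - F.Hop (fq F F.I z w)) := by
    simp only [f1, Hop_eq, map_add, map_sub]
  have h4 : fq F (fun i j k l => F.Hop (F.I i j k l)) z w = 0 := by
    simp [fq, h2]
  rw [h3, h1, Hop_fq, Hop_fq, h4]
  simp [SS]

/-- positivity from strictness -/
theorem pos1 (hRP4 : Goal_RP4) (hWQ : Goal_WQ) {s : T4 n} (hs : IsCurv s)
    (hq : ∀ z w, 0 < qf (Id4 n) z w → 0 < qf s z w) (z w : Fin n → ℂ)
    (h1 : qf (Id4 n) z w ≤ 1) : 0 < qf s z w + (1 - qf (Id4 n) z w) := by
  have h0 : 0 ≤ qf (Id4 n) z w := by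
    have := (hWQ n 0 0 0 (by simp [Matrix.IsSymm]) (fun v => by simp [rq]) (fun v => by simp [rq]) z w).1
    exact this
  rcases h0.eq_or_lt with h | h
  · have := ((hRP4 n).2.1 z w).1 h.symm s hs
    rw [this, ← h]; norm_num
  · have := hq z w h
    linarith

theorem pos2 {s : T4 n} {p : ℝ} (hq : ∀ v, v ≠ 0 → p * lam s * nrm v < rq (Ric s) v)
    (v : Fin n → ℝ) (c : ℝ) (h1 : nrm v + c^2 = 1) :
    0 < rq (Ric s) v - p * lam s * nrm v + c^2 := by
  by_cases hv : v = 0
  · have e1 : nrm v = 0 := by rw [hv]; exact nrm_zero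
    have e2 : rq (Ric s) v = 0 := by rw [hv]; exact rq_zero _
    rw [e2]
    rw [e1] at h1 ⊢
    linarith
  · have := hq v hv
    have := sq_nonneg c
    linarith

/-- index sets -/
def K1 (n : ℕ) : Set ((Ix n → ℂ) × (Ix n → ℂ)) :=
  {q | ∑ i, Complex.normSq (q.1 i) ≤ 1 ∧ ∑ i, Complex.normSq (q.2 i) ≤ 1}

def K2 (n : ℕ) : Set (Ix n → ℝ) := {v | nrm v = 1}

theorem K1_compact (n : ℕ) : IsCompact (K1 n) := by
  apply Metric.isCompact_of_isClosed_isBounded
  · apply IsClosed.inter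
    · exact isClosed_le (continuous_finset_sum _ fun i _ =>
        Complex.continuous_normSq.comp ((continuous_apply i).comp continuous_fst)) continuous_const
    · exact isClosed_le (continuous_finset_sum _ fun i _ =>
        Complex.continuous_normSq.comp ((continuous_apply i).comp continuous_snd)) continuous_const
  · refine (Metric.isBounded_closedBall (x := (0 : (Ix n → ℂ) × (Ix n → ℂ))) (r := 1)).subset ?_
    rintro q ⟨h1, h2⟩
    have key : ∀ u : Ix n → ℂ, ∑ i, Complex.normSq (u i) ≤ 1 → ‖u‖ ≤ 1 := fun u hu => by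
      rw [pi_norm_le_iff_of_nonneg zero_le_one]
      intro i
      have h3 : Complex.normSq (u i) ≤ 1 :=
        le_trans (Finset.single_le_sum (f := fun i => Complex.normSq (u i))
          (fun j _ => Complex.normSq_nonneg _) (Finset.mem_univ i)) hu
      rw [Complex.normSq_eq_norm_sq] at h3
      nlinarith [norm_nonneg (u i)]
    rw [mem_closedBall_zero_iff, Prod.norm_def]
    exact max_le (key _ h1) (key _ h2)

theorem K2_compact (n : ℕ) : IsCompact (K2 n) := by
  apply Metric.isCompact_of_isClosed_isBounded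
  · exact isClosed_eq (continuous_finset_sum _ fun i _ => (continuous_apply i).pow 2)
      continuous_const
  · refine (Metric.isBounded_closedBall (x := (0 : Ix n → ℝ)) (r := 1)).subset ?_
    intro v hv
    have hv' : ∑ i, v i ^ 2 = 1 := hv
    rw [mem_closedBall_zero_iff, pi_norm_le_iff_of_nonneg zero_le_one]
    intro i
    have h3 : v i ^ 2 ≤ 1 :=
      le_trans (Finset.single_le_sum (f := fun i => v i ^ 2)
        (fun j _ => sq_nonneg _) (Finset.mem_univ i)) hv'.le
    rw [Real.norm_eq_abs]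
    exact abs_le_one_iff_mul_self_le_one.2 (by nlinarith)

/-- the family -/
def ff (F : FB n T) (a b p : ℝ) (bet : F.B) : (K1 n) ⊕ (K2 n) → F.B :=
  Sum.elim (fun q => f1 F a b bet q.1.1 q.1.2) (fun v => f2 F a b p bet v.1)

theorem cont_cz (i j k l : Ix n) :
    Continuous (fun q : (Ix n → ℂ) × (Ix n → ℂ) => cz q.1 q.2 i j k l) := by
  unfold cz
  fun_prop

theorem cont_fq (F : FB n T) (hF : F.Base) (S : Ix n → Ix n → Ix n → Ix n → F.B) :
    Continuous (fun q : ((Ix n → ℂ) × (Ix n → ℂ)) × (F.Z × TI T) =>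
      F.ev q.2.1 q.2.2 (fq F S q.1.1 q.1.2)) := by
  simp only [fq, map_sum, map_smul, smul_eq_mul]
  refine continuous_finset_sum _ fun i _ => continuous_finset_sum _ fun j _ =>
    continuous_finset_sum _ fun k _ => continuous_finset_sum _ fun l _ => ?_
  exact ((cont_cz i j k l).comp continuous_fst).mul ((hF.cont (S i j k l)).comp continuous_snd)

theorem cont_fr (F : FB n T) (hF : F.Base) (A : Ix n → Ix n → F.B) :
    Continuous (fun q : (Ix n → ℝ) × (F.Z × TI T) => F.ev q.2.1 q.2.2 (fr F A q.1)) := by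
  simp only [fr, map_sum, map_smul, smul_eq_mul]
  refine continuous_finset_sum _ fun i _ => continuous_finset_sum _ fun j _ => ?_
  exact (((continuous_apply i).comp continuous_fst).mul
    ((continuous_apply j).comp continuous_fst)).mul ((hF.cont (A i j)).comp continuous_snd)

theorem cont_ff (F : FB n T) (hF : F.Base) (a b p : ℝ) (bet : F.B) :
    Continuous (fun q : ((K1 n) ⊕ (K2 n)) × (F.Z × TI T) =>
      F.ev q.2.1 q.2.2 (ff F a b p bet q.1)) := by
  rw [← (Homeomorph.sumProdDistrib (X := K1 n) (Y := K2 n) (Z := F.Z × TI T)).symm.comp_continuous_iff']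
  rw [continuous_sum_dom]
  constructor
  · have h : Continuous (fun q : (K1 n) × (F.Z × TI T) =>
        F.ev q.2.1 q.2.2 (f1 F a b bet q.1.1.1 q.1.1.2)) := by
      simp only [f1, map_add, map_sub, map_one]
      have c : Continuous (fun q : (K1 n) × (F.Z × TI T) =>
          ((q.1.1, q.2) : ((Ix n → ℂ) × (Ix n → ℂ)) × (F.Z × TI T))) := by fun_prop
      exact ((cont_fq F hF _).comp c).add (continuous_const.sub ((cont_fq F hF _).comp c))
    exact h
  · have h : Continuous (fun q : (K2 n) × (F.Z × TI T) =>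
        F.ev q.2.1 q.2.2 (f2 F a b p bet q.1.1)) := by
      simp only [f2, map_add, map_mul]
      have c : Continuous (fun q : (K2 n) × (F.Z × TI T) =>
          ((q.1.1, q.2) : (Ix n → ℝ) × (F.Z × TI T))) := by fun_prop
      have cl : Continuous (fun q : (K2 n) × (F.Z × TI T) => F.ev q.2.1 q.2.2 (lnu F q.1.1)) := by
        simp only [lnu, map_sum, map_smul, smul_eq_mul]
        refine continuous_finset_sum _ fun i _ => ?_
        exact (((continuous_apply i).comp continuous_fst).comp c).mul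
          ((hF.cont (F.nu i)).comp continuous_snd)
      exact ((cont_fr F hF _).comp c).add (cl.mul cl)
    exact h

/-- all members nonnegative: the cone -/
theorem cone_of_nonneg (hRP2 : Goal_RP2) (hRP3 : Goal_RP3) (hRP4 : Goal_RP4) (hWQ : Goal_WQ)
    (F : FB n T) (a b p : ℝ) (bet : F.B) (x : F.Z)
    (t : TI T) (ι : Ix n → Fin n → ℝ) (hι : Iso (F.nv x t) ι) (s : T4 n) (hs : IsCurv s)
    (h1 : pull ι (fun i j k l => F.ev x t (F.Sb a b bet i j k l)) = s)
    (h2 : Hor (F.nv x t) (fun i j k l => F.ev x t (F.Sb a b bet i j k l)))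
    (h : ∀ k, 0 ≤ F.ev x t (ff F a b p bet k)) : C0 s ∧ RicGe p s := by
  obtain ⟨-, -, -, -, -, -, -, -, pz, pv, nn, -⟩ := hRP3 n _ ι hι
  constructor
  · refine ⟨hs, fun z w => ?_⟩
    have h0 : 0 ≤ qf (Id4 n) z w :=
      (hWQ n 0 0 0 (by simp [Matrix.IsSymm]) (fun v => by simp [rq]) (fun v => by simp [rq]) z w).1
    by_cases hq : qf (Id4 n) z w = 0
    · rw [((hRP4 n).2.1 z w).1 hq s hs]
    · obtain ⟨z', w', n1, n2, -, n4, n5⟩ := ((hRP4 n).2.1 z w).2 hq
      rw [n5 s hs]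
      apply mul_nonneg h0
      have e1 := h (Sum.inl ⟨(fun i => ∑ a, (ι i a : ℂ) * z' a, fun i => ∑ a, (ι i a : ℂ) * w' a), by
        refine ⟨?_, ?_⟩
        · show ∑ i, Complex.normSq (∑ a, (ι i a : ℂ) * z' a) ≤ 1
          rw [normSq_iota hι, n1]
        · show ∑ i, Complex.normSq (∑ a, (ι i a : ℂ) * w' a) ≤ 1
          rw [normSq_iota hι, n2]⟩)
      have e2 : F.ev x t (f1 F a b bet (fun i => ∑ a, (ι i a : ℂ) * z' a)
          (fun i => ∑ a, (ι i a : ℂ) * w' a)) = qf s z' w' := by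
        rw [ev_f1 hRP2 hRP3 F a b bet x t ι hι s h1 h2, pz, pz, n4]
        ring
      have e3 : 0 ≤ F.ev x t (f1 F a b bet (fun i => ∑ a, (ι i a : ℂ) * z' a)
          (fun i => ∑ a, (ι i a : ℂ) * w' a)) := e1
      rwa [e2] at e3
  · intro v
    by_cases hv : v = 0
    · have e1 : nrm v = 0 := by rw [hv]; exact nrm_zero
      have e2 : rq (Ric s) v = 0 := by rw [hv]; exact rq_zero _
      rw [e1, e2, mul_zero]
    · have hp := nrm_pos hv
      set c : ℝ := 1 / Real.sqrt (nrm v) with hc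
      have hsq : 0 < Real.sqrt (nrm v) := Real.sqrt_pos.2 hp
      have hc2 : c ^ 2 * nrm v = 1 := by
        rw [hc, div_pow, one_pow, Real.sq_sqrt hp.le]
        field_simp
      have e0 : nrm (fun i => c * v i) = 1 := by rw [nrm_smul_vec, hc2]
      have e1 := h (Sum.inr ⟨fun i => ∑ a, ι i a * (c * v a), by
        show nrm (fun i => ∑ a, ι i a * (c * v a)) = 1
        rw [nrm_iota hι (fun a => c * v a), e0]⟩)
      have e2 : 0 ≤ F.ev x t (f2 F a b p bet (fun i => ∑ a, ι i a * (c * v a))) := e1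
      rw [ev_f2 hRP2 hRP3 F a b p bet x t ι hι s h1 h2, pv (fun a => c * v a),
        nu_iota hι (fun a => c * v a), e0, rq_smul_vec] at e2
      have hcp : 0 < c ^ 2 := by rw [hc]; positivity
      have e3 : 0 ≤ c ^ 2 * (rq (Ric s) v - p * lam s * nrm v) := by
        have : p * lam s * nrm v * c ^ 2 = p * lam s := by
          calc p * lam s * nrm v * c ^ 2 = p * lam s * (c ^ 2 * nrm v) := by ring
            _ = _ := by rw [hc2, mul_one]
        nlinarith
      have := nonneg_of_mul_nonneg_right e3 hcp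
      linarith

theorem qI_le {z w : Fin n → ℂ} (hz : ∑ i, Complex.normSq (z i) ≤ 1)
    (hw : ∑ i, Complex.normSq (w i) ≤ 1) : qf (Id4 n) z w ≤ 1 := by
  rw [qI]
  have h1 : 0 ≤ ∑ i, Complex.normSq (z i) := Finset.sum_nonneg fun i _ => Complex.normSq_nonneg _
  have h2 : 0 ≤ ∑ i, Complex.normSq (w i) := Finset.sum_nonneg fun i _ => Complex.normSq_nonneg _
  have h3 := Complex.normSq_nonneg (∑ i, z i * star (w i))
  nlinarith

end INV

open INV in
theorem goal_INV (hMP3 : Goal_MP3) (hEVK : Goal_EVK) (hPU : Goal_PU) (hRP1 : Goal_RP1)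
    (hRP2 : Goal_RP2) (hRP3 : Goal_RP3) (hRP4 : Goal_RP4) (hLI : Goal_LI) (hLN : Goal_LN)
    (hCL : Goal_CL) (hWQ : Goal_WQ) (hRIC : Goal_RIC) (hPRD : Goal_PRD) : Goal_INV := by
  intro n hn a b p c B hG hB T F hF hRF bet hH hD hbet hlam hstart hlarge
  have hb := hF.toBase
  have hn1 : 1 ≤ n := by omega
  have hn4 : (4:ℝ) ≤ n := by exact_mod_cast hn
  have hEV := fun z t ι hι => hEVK n hn a b B hG.ha hG.hb hB T F hF hRF bet hH hD z t ι hι
  obtain ⟨qa, qs, Ra, Rs, la, ls, -, -, RI, lI, -, rqa, rqs, rq1⟩ := hLN n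
  have lI := lI hn1
  obtain ⟨-, -, cId, cadd, csmul, -, -, cell, -⟩ := hCL n
  obtain ⟨-, -, -, -, -, hHor, -⟩ := hRIC n T F hF
  have hIs : ∀ z t ι, Iso (F.nv z t) ι → IsCurv (pull ι (F.rv z t) + F.ev z t bet • Id4 n) :=
    fun z t ι hι => cadd _ _ (hRP2 n _ ι _ hι (hHor z t)).1 (csmul _ _ cId)
  have hIss : ∀ z t ι, Iso (F.nv z t) ι →
      IsCurv (elli a b (pull ι (F.rv z t) + F.ev z t bet • Id4 n)) :=
    fun z t ι hι => (cell a b _ (hIs z t ι hι)).2.1
  have hlp : ∀ z t ι, Iso (F.nv z t) ι →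
      0 < lam (elli a b (pull ι (F.rv z t) + F.ev z t bet • Id4 n)) := fun z t ι hι => by
    rw [(hLI n (by omega) a b hG.ha hG.hb _).2.2.2.2.1, la, ls, lI]
    have h1 : lam (pull ι (F.rv z t)) = F.ev z t F.lam := by
      rw [(hRP2 n _ ι _ hι (hHor z t)).2.2.2.2.1]
      simp only [FB.lam, FB.Ric, map_smul, map_sum, smul_eq_mul, Ric, FB.rv]
      ring
    rw [h1]
    have h2 := hlam z t
    have h3 := hbet z t
    have h4 := hG.ha
    apply div_pos
    · have : 0 ≤ F.ev z t bet * ((n:ℝ) - 1) := mul_nonneg h3 (by linarith)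
      linarith
    · have : 0 ≤ 2 * ((n:ℝ) - 1) * a := mul_nonneg (by linarith) h4
      linarith
  have hnu : ∀ z t, ∑ i, F.nv z t i ^ 2 = 1 := fun z t => by
    have := congrArg (F.ev z t) hb.nunu
    simpa [FB.nv, map_sum, map_pow] using this
  have hSK : ∀ z t ι, Iso (F.nv z t) ι → SK a b p (pull ι (F.rv z t) + F.ev z t bet • Id4 n) →
      ∀ k, 0 < F.ev z t (ff F a b p bet k) := fun z t ι hι hsk k => by
    obtain ⟨e1, e2, -⟩ := hEV z t ι hι
    obtain ⟨-, -, -, -, -, -, -, -, -, -, nn, qle⟩ := hRP3 n _ ι hι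
    rcases k with ⟨q, hq⟩ | ⟨v, hv⟩
    · show 0 < F.ev z t (f1 F a b bet q.1 q.2)
      rw [ev_f1 hRP2 hRP3 F a b bet z t ι hι _ e1 e2]
      exact pos1 hRP4 hWQ (hIss z t ι hι) hsk.2.1 _ _ ((qle _ _).trans (qI_le hq.1 hq.2))
    · show 0 < F.ev z t (f2 F a b p bet v)
      rw [ev_f2 hRP2 hRP3 F a b p bet z t ι hι _ e1 e2]
      refine pos2 hsk.2.2 _ _ ?_
      rw [nn]
      have : nrm v = 1 := hv
      linarith
  haveI : CompactSpace (INV.K1 n) := isCompact_iff_compactSpace.1 (K1_compact n)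
  haveI : CompactSpace (INV.K2 n) := isCompact_iff_compactSpace.1 (K2_compact n)
  have hmain : ∀ k z (t : TI T), 0 < F.ev z t (ff F a b p bet k) := by
    intro k z t
    refine hMP3 n T F hb ((INV.K1 n) ⊕ (INV.K2 n)) (ff F a b p bet) (cont_ff F hb a b p bet) 0 t le_rfl
      t.2.2 ?_ ?_ k z t t.2.1 le_rfl
    · obtain ⟨t0, h0, h0T, h⟩ := hstart
      refine ⟨t0, h0, fun k z t _ ht => ?_⟩
      obtain ⟨ι, hι⟩ := hRP1 n (F.nv z t) (hnu z t)
      exact hSK z t ι hι (h z t (by simpa using ht) ι hι) k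
    · intro k z t' ht0 htT hz hall
      obtain ⟨ι, hι⟩ := hRP1 n (F.nv z t') (hnu z t')
      obtain ⟨e1, e2, e3, e4⟩ := hEV z t' ι hι
      have hcone := cone_of_nonneg hRP2 hRP3 hRP4 hWQ F a b p bet z t' ι hι _ (hIss z t' ι hι)
        e1 e2 (fun k' => hall k' z)
      by_cases hc : c * lam (elli a b (pull ι (F.rv z t') + F.ev z t' bet • Id4 n)) ≤
          2 * n * F.ev z t' bet
      · exact absurd hz (ne_of_gt (hSK z t' ι hι (hlarge z t' ι hι hc) k))
      · push Not at hc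
        have e5 := e4 _ rfl
        have hP := hPU n hn a b p c (F.ev z t' bet) B _ hG hcone.1 hcone.2 (hlp z t' ι hι)
          (hbet z t') hB hc
        obtain ⟨-, -, -, -, -, -, -, -, -, -, nn, qle⟩ := hRP3 n _ ι hι
        set s := elli a b (pull ι (F.rv z t') + F.ev z t' bet • Id4 n) with hs
        set β := F.ev z t' bet with hβ
        set κ := (2 * ((n : ℝ) - 1) - 1 / B) * β ^ 2 / (1 + 2 * ((n : ℝ) - 1) * a) with hκ
        have e6 : pull ι (fun i j k l => F.ev z t' (F.Hop (F.Sb a b bet i j k l))) =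
            (2:ℝ) • (Q s + Dab a b s) + (-(4 * β)) • wdg (Ric s) 1 + κ • Id4 n := by
          rw [e5, sub_eq_add_neg, neg_smul]
        rcases k with ⟨q, hq⟩ | ⟨v, hv⟩
        · have hz' : F.ev z t' (f1 F a b bet q.1 q.2) = 0 := hz
          rw [ev_f1 hRP2 hRP3 F a b bet z t' ι hι _ e1 e2] at hz'
          have h5 : qf (Id4 n) (pullv ι q.1) (pullv ι q.2) ≤ 1 :=
            (qle _ _).trans (qI_le hq.1 hq.2)
          have h6 : 0 ≤ qf s (pullv ι q.1) (pullv ι q.2) := hcone.1.2 _ _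
          have h7 : qf s (pullv ι q.1) (pullv ι q.2) = 0 := by linarith
          have h8 : 0 < qf (Id4 n) (pullv ι q.1) (pullv ι q.2) := by linarith
          have h9 := hP.1 _ _ h7 h8
          show 0 < F.ev z t' (F.Hop (f1 F a b bet q.1 q.2))
          rw [Hop_f1 hPRD F hb, ev_fq]
          obtain ⟨-, -, -, -, -, -, -, qq, -⟩ := hRP2 n _ ι _ hι e3
          rw [qq, e6, qa, qa, qs, qs, qs]
          linarith
        · have hz' : F.ev z t' (f2 F a b p bet v) = 0 := hz
          rw [ev_f2 hRP2 hRP3 F a b p bet z t' ι hι _ e1 e2] at hz'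
          have h5 := hcone.2 (pullr ι v)
          have h6 := sq_nonneg (∑ i, F.nv z t' i * v i)
          have h7 : (∑ i, F.nv z t' i * v i)^2 = 0 := by linarith
          have h8 : nrm (pullr ι v) = 1 := by
            rw [nn, h7]
            have : nrm v = 1 := hv
            linarith
          have h9 : pullr ι v ≠ 0 := by
            intro h0
            rw [h0] at h8
            have : nrm (0 : Fin n → ℝ) = 0 := nrm_zero
            linarith
          have h10 := hP.2 _ h9 (by linarith)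
          show 0 < F.ev z t' (F.Hop (f2g F p (SS F a b bet) v + lnu F v * lnu F v))
          have h11 : F.Hop (f2g F p (SS F a b bet) v + lnu F v * lnu F v) =
              F.Hop (f2g F p (SS F a b bet) v) + F.Hop (lnu F v * lnu F v) := by
            simp only [Hop_eq, map_add]
          rw [h11, Hop_lnu F hb, add_zero, Hop_f2g hPRD F hb]
          show 0 < F.ev z t' (f2g F p (fun i j k l => F.Hop (F.Sb a b bet i j k l)) v)
          rw [ev_f2g hRP2 hRP3 F p z t' ι hι _ _ e6 e3, Ra, Ra, Rs, Rs, Rs, RI, la, la, ls, ls, ls, lI,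
            rqa, rqa, rqs, rqs, rqs, rqs, rq1]
          linarith
  intro z t ι hι
  obtain ⟨e1, e2, -⟩ := hEV z t ι hι
  exact ⟨hIs z t ι hι, cone_of_nonneg hRP2 hRP3 hRP4 hWQ F a b p bet z t ι hι _ (hIss z t ι hι)
    e1 e2 (fun k' => (hmain k' z t).le)⟩

end

end Pool.Agent.Helper47.RFn
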