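import Pool.Agent.Helper47.RFn.Alg

/-!
RFn-DF: the formula of Boehm and Wilking.
-/

set_option autoImplicit false

namespace Pool.Agent.Helper47.RFn

open Finset

namespace DFaux

variable {n : ℕ}

lemma wdg_add_left (A B C : M2 n) : wdg (A + B) C = wdg A C + wdg B C := by
  funext a b c d
  simp only [wdg, Pi.add_apply, Matrix.add_apply]
  ring

lemma wdg_smul_left (r : ℝ) (A B : M2 n) : wdg (r • A) B = r • wdg A B := by
  funext a b c d
  simp only [wdg, Pi.smul_apply, Matrix.smul_apply, smul_eq_mul]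
  ring

lemma wdg_comm (A B : M2 n) : wdg A B = wdg B A := by
  funext a b c d
  simp only [wdg]
  ring

lemma wdg_add_right (A B C : M2 n) : wdg A (B + C) = wdg A B + wdg A C := by
  rw [wdg_comm, wdg_add_left, wdg_comm B, wdg_comm C]

lemma wdg_smul_right (r : ℝ) (A B : M2 n) : wdg A (r • B) = r • wdg A B := by
  rw [wdg_comm, wdg_smul_left, wdg_comm]

lemma wdg_curv {A B : M2 n} (hA : A.IsSymm) (hB : B.IsSymm) : IsCurv (wdg A B) := by
  have h1 : ∀ i j, A i j = A j i := fun i j => (hA.apply i j).symm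
  have h2 : ∀ i j, B i j = B j i := fun i j => (hB.apply i j).symm
  constructor
  · intro a b c d
    simp only [wdg]
    ring
  · intro a b c d
    simp only [wdg]
    ring
  · intro a b c d
    simp only [wdg]
    rw [h1 c a, h2 d b, h1 c b, h2 d a, h2 c a, h1 d b, h2 c b, h1 d a]
    ring
  · intro a b c d
    simp only [wdg]
    rw [h1 c a, h2 c a, h1 b a, h2 b a, h1 c b, h2 c b]
    ring

lemma add_curv {R S : T4 n} (hR : IsCurv R) (hS : IsCurv S) : IsCurv (R + S) := by
  constructor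
  · intro a b c d
    simp only [Pi.add_apply]
    rw [hR.a12 a b c d, hS.a12 a b c d]
    ring
  · intro a b c d
    simp only [Pi.add_apply]
    rw [hR.a34 a b c d, hS.a34 a b c d]
    ring
  · intro a b c d
    simp only [Pi.add_apply]
    rw [hR.pair a b c d, hS.pair a b c d]
  · intro a b c d
    simp only [Pi.add_apply]
    linear_combination hR.bian a b c d + hS.bian a b c d

lemma smul_curv {R : T4 n} (r : ℝ) (hR : IsCurv R) : IsCurv (r • R) := by
  constructor
  · intro a b c d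
    simp only [Pi.smul_apply, smul_eq_mul]
    rw [hR.a12 a b c d]
    ring
  · intro a b c d
    simp only [Pi.smul_apply, smul_eq_mul]
    rw [hR.a34 a b c d]
    ring
  · intro a b c d
    simp only [Pi.smul_apply, smul_eq_mul]
    rw [hR.pair a b c d]
  · intro a b c d
    simp only [Pi.smul_apply, smul_eq_mul]
    linear_combination r * hR.bian a b c d

lemma ric_symm {R : T4 n} (hR : IsCurv R) : (Ric R).IsSymm := by
  ext i j
  rw [Matrix.transpose_apply]
  unfold Ric
  exact Finset.sum_congr rfl fun b _ => hR.pair _ _ _ _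

lemma ric0_symm {R : T4 n} (hR : IsCurv R) : (Ric0 R).IsSymm := by
  unfold Ric0
  exact (ric_symm hR).sub (Matrix.isSymm_one.smul _)

lemma act_one (R : T4 n) : act R (1 : M2 n) = Ric R := by
  funext a b
  simp only [act, Ric, Matrix.one_apply, mul_ite, mul_one, mul_zero, Finset.sum_ite_eq,
    Finset.mem_univ, if_true]

lemma act_add (R : T4 n) (A B : M2 n) : act R (A + B) = act R A + act R B := by
  funext a b
  simp only [act, Matrix.add_apply, mul_add, Finset.sum_add_distrib]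

lemma act_smul (R : T4 n) (r : ℝ) (A : M2 n) : act R (r • A) = r • act R A := by
  funext a b
  simp only [act, Matrix.smul_apply, smul_eq_mul, Finset.mul_sum]
  refine Finset.sum_congr rfl fun e _ => Finset.sum_congr rfl fun f _ => ?_
  ring

lemma act_wdg {A : M2 n} (hA : A.IsSymm) (ht : A.trace = 0) :
    act (wdg A 1) A = -(A * A) + ((∑ a, ∑ b, A a b ^ 2) / 2) • (1 : M2 n) := by
  have h1 : ∀ i j, A i j = A j i := fun i j => (hA.apply i j).symm
  funext a b
  have e : ∀ e f, wdg A 1 a e b f * A e f =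
      (if e = f then A a b * A e f / 2 else 0) - (if e = b then A a f * A e f / 2 else 0)
      + (if a = b then A e f ^ 2 / 2 else 0) - (if a = f then A e b * A e f / 2 else 0) := by
    intro e f
    simp only [wdg, Matrix.one_apply]
    split_ifs <;> ring
  have ht' : ∑ e, A e e = 0 := ht
  have s1 : ∑ e, ∑ f, (if e = f then A a b * A e f / 2 else 0) = 0 := by
    simp only [Finset.sum_ite_eq, Finset.mem_univ, if_true]
    rw [← Finset.sum_div, ← Finset.mul_sum, ht']
    ring
  have s2 : ∑ e, ∑ f, (if e = b then A a f * A e f / 2 else 0) = (A * A) a b / 2 := by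
    rw [Finset.sum_comm]
    simp only [Finset.sum_ite_eq', Finset.mem_univ, if_true]
    rw [Matrix.mul_apply, Finset.sum_div]
    exact Finset.sum_congr rfl fun f _ => by rw [h1 b f]
  have s3 : ∑ e, ∑ f, (if a = b then A e f ^ 2 / 2 else 0) =
      if a = b then (∑ a, ∑ b, A a b ^ 2) / 2 else 0 := by
    split_ifs
    · rw [Finset.sum_div]
      exact Finset.sum_congr rfl fun e _ => (Finset.sum_div _ _ _).symm
    · simp
  have s4 : ∑ e, ∑ f, (if a = f then A e b * A e f / 2 else 0) = (A * A) a b / 2 := by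
    simp only [Finset.sum_ite_eq, Finset.mem_univ, if_true]
    rw [Matrix.mul_apply, Finset.sum_div]
    exact Finset.sum_congr rfl fun e _ => by rw [h1 a e]; ring
  have : act (wdg A 1) A a b = ∑ e, ∑ f, ((if e = f then A a b * A e f / 2 else 0)
      - (if e = b then A a f * A e f / 2 else 0)
      + (if a = b then A e f ^ 2 / 2 else 0) - (if a = f then A e b * A e f / 2 else 0)) := by
    unfold act
    exact Finset.sum_congr rfl fun e' _ => Finset.sum_congr rfl fun f _ => e e' f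
  rw [this]
  simp only [Finset.sum_sub_distrib, Finset.sum_add_distrib]
  rw [s1, s2, s3, s4]
  rw [Matrix.add_apply, Matrix.neg_apply, Matrix.smul_apply, Matrix.one_apply, smul_eq_mul]
  split_ifs <;> ring

lemma trace_sq {A : M2 n} (hA : A.IsSymm) : (A * A).trace = ∑ a, ∑ b, A a b ^ 2 := by
  have h1 : ∀ i j, A i j = A j i := fun i j => (hA.apply i j).symm
  unfold Matrix.trace
  refine Finset.sum_congr rfl fun a _ => ?_
  rw [Matrix.diag_apply, Matrix.mul_apply]
  exact Finset.sum_congr rfl fun b _ => by rw [h1 b a]; ring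

end DFaux

open DFaux

theorem goal_DF (hPK : Goal_PK) (hQB : Goal_QB) (hSH : Goal_SH) (hLN : Goal_LN) (_hLI : Goal_LI) :
    Goal_DF := by
  intro n hn a b ha hb R hR
  obtain ⟨-, -, radd, rsmul, ladd, lsmul, rA1, rAA, rId, -, tr0, -, -, -⟩ := hLN n
  obtain ⟨q1, q2, -, q4, q5, q6, q7⟩ := hQB n
  have hn1 : 1 ≤ n := by omega
  have hn0 : (n : ℝ) ≠ 0 := by positivity
  have hn3 : (3 : ℝ) ≤ n := by exact_mod_cast hn
  have hN : (1 + 2 * ((n : ℝ) - 1) * a) ≠ 0 := by
    have : 0 ≤ ((n : ℝ) - 1) * a := mul_nonneg (by linarith) ha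
    nlinarith
  have hAs := ric0_symm hR
  have ht : (Ric0 R).trace = 0 := tr0 R hn1
  have hRic : Ric R = Ric0 R + lam R • (1 : M2 n) := by
    unfold Ric0
    rw [sub_add_cancel]
  have hσ : (∑ a, ∑ b, Ric0 R a b ^ 2) = n * sig R := by
    unfold sig
    field_simp
  have hAAs : (Ric0 R * Ric0 R).IsSymm := by
    unfold Matrix.IsSymm
    rw [Matrix.transpose_mul, hAs.eq]
  have htAA : (Ric0 R * Ric0 R).trace = n * sig R := by rw [trace_sq hAs, hσ]
  have hactW : act (wdg (Ric0 R) 1) (Ric0 R) =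
      -(Ric0 R * Ric0 R) + (n * sig R / 2) • (1 : M2 n) := by
    rw [act_wdg hAs ht, hσ]
  have hQR : Ric (Q R) = act R (Ric0 R) + lam R • Ric R := by
    have e : act R (Ric R) = act R (Ric0 R + lam R • (1 : M2 n)) := by rw [← hRic]
    rw [q6 R hR, e, act_add, act_smul, act_one]
  have hlQ : lam (Q R) = lam R ^ 2 + sig R := q7 R hR hn1
  have hWc : IsCurv (wdg (Ric0 R) 1) := wdg_curv hAs Matrix.isSymm_one
  have hRW : Ric (wdg (Ric0 R) 1) = (((n : ℝ) - 2) / 2) • Ric0 R := by
    rw [rA1 _ hAs, ht]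
    simp
  have hPKR := hPK n R (Ric0 R) hR hAs
  have hPKW := hPK n (wdg (Ric0 R) 1) (Ric0 R) hWc hAs
  rw [hRW, hactW] at hPKW
  have hW1 : wdg (Ric R) 1 = wdg (Ric0 R) 1 + lam R • Id4 n := by
    conv_lhs => rw [hRic]
    rw [wdg_add_left, wdg_smul_left]
    rfl
  have hWA : wdg (Ric R) (Ric0 R) = wdg (Ric0 R) (Ric0 R) + lam R • wdg (Ric0 R) 1 := by
    conv_lhs => rw [hRic]
    rw [wdg_add_left, wdg_smul_left, wdg_comm 1]
  have hWW : wdg (Ric R) (Ric R) = wdg (Ric0 R) (Ric0 R) + (2 * lam R) • wdg (Ric0 R) 1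
      + (lam R ^ 2) • Id4 n := by
    have e : wdg (Ric R) (Ric R) = wdg (Ric R) (Ric0 R + lam R • (1 : M2 n)) := by rw [← hRic]
    rw [e, wdg_add_right, wdg_smul_right, hWA, hW1]
    funext i j k l
    simp only [Pi.add_apply, Pi.smul_apply, smul_eq_mul]
    ring
  set κ : ℝ := sig R / (1 + 2 * ((n : ℝ) - 1) * a) *
        ((n : ℝ) * b ^ 2 * (1 - 2 * b) - 2 * (a - b) * (1 - 2 * b + (n : ℝ) * b ^ 2)) with hκ
  have hκN : κ * (1 + 2 * ((n : ℝ) - 1) * a) = sig R *
      ((n : ℝ) * b ^ 2 * (1 - 2 * b) - 2 * (a - b) * (1 - 2 * b + (n : ℝ) * b ^ 2)) := by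
    rw [hκ]
    field_simp
  have hD : Dab a b R = (((n : ℝ) - 2) * b ^ 2 + 2 * b) • wdg (Ric0 R) (Ric0 R)
      + (4 * a * lam R) • wdg (Ric0 R) 1 + (2 * b ^ 2) • wdg (Ric0 R * Ric0 R) 1
      + (2 * a * lam R ^ 2 + κ) • Id4 n := by
    unfold Dab
    rw [hWW, ← hκ]
    funext i j k l
    simp only [Pi.add_apply, Pi.smul_apply, smul_eq_mul]
    ring
  set c : ℝ := (n : ℝ) * b ^ 2 * sig R + ((n : ℝ) - 1) * (2 * a * lam R ^ 2 + κ) with hc
  have hRD : Ric (Dab a b R) = -(2 * b) • (Ric0 R * Ric0 R)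
      + (2 * a * ((n : ℝ) - 2) * lam R) • Ric0 R + c • (1 : M2 n) := by
    rw [hD, radd, radd, radd, rsmul, rsmul, rsmul, rsmul, rAA _ hAs, rA1 _ hAs, rA1 _ hAAs, rId,
      ht, htAA, hc]
    ext i j
    simp only [Matrix.add_apply, Matrix.sub_apply, Matrix.smul_apply, smul_eq_mul, zero_smul,
      zero_div, Matrix.zero_apply]
    ring
  have hlD : lam (Dab a b R) = c - 2 * b * sig R := by
    have e : lam (Dab a b R) = (Ric (Dab a b R)).trace / n := rfl
    rw [e, hRD, Matrix.trace_add, Matrix.trace_add, Matrix.trace_smul, Matrix.trace_smul,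
      Matrix.trace_smul, Matrix.trace_one, htAA, ht, Fintype.card_fin]
    simp only [smul_eq_mul]
    field_simp
    ring
  constructor
  · -- the main formula
    have hY : IsCurv (R + (2 * b) • wdg (Ric0 R) 1) := add_curv hR (smul_curv _ hWc)
    have e1 : ell a b R = (R + (2 * b) • wdg (Ric0 R) 1) + (2 * a * lam R) • Id4 n := by
      unfold ell
      funext i j k l
      simp only [Pi.add_apply, Pi.smul_apply, smul_eq_mul]
      ring
    have e2 : Ric (R + (2 * b) • wdg (Ric0 R) 1) = Ric R + (b * ((n : ℝ) - 2)) • Ric0 R := by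
      rw [radd, rsmul, hRW]
      ext i j
      simp only [Matrix.add_apply, Matrix.smul_apply, smul_eq_mul]
      ring
    have e3 : Q (R + (2 * b) • wdg (Ric0 R) 1) = Q R
        + (2 * b) • (wdg (Ric R) (Ric0 R) + wdg (act R (Ric0 R)) 1)
        + (2 * b ^ 2) • ((((n : ℝ) - 2) / 2) • wdg (Ric0 R) (Ric0 R) - wdg (Ric0 R * Ric0 R) 1
          + ((n : ℝ) * sig R / 2) • Id4 n) := by
      have h4 : wdg ((((n : ℝ) - 2) / 2) • Ric0 R) (Ric0 R)
          + wdg (-(Ric0 R * Ric0 R) + (n * sig R / 2) • (1 : M2 n)) 1 =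
          (((n : ℝ) - 2) / 2) • wdg (Ric0 R) (Ric0 R) - wdg (Ric0 R * Ric0 R) 1
          + ((n : ℝ) * sig R / 2) • Id4 n := by
        have h5 : -(Ric0 R * Ric0 R) = (-1 : ℝ) • (Ric0 R * Ric0 R) := by simp
        rw [wdg_add_left, wdg_smul_left, wdg_smul_left, h5, wdg_smul_left]
        funext i j k l
        simp only [Pi.add_apply, Pi.sub_apply, Pi.smul_apply, smul_eq_mul, Id4]
        ring
      rw [← hPKR, ← h4, ← hPKW, q2, ← q1 ((2 * b) • wdg (Ric0 R) 1), q4, q5 (wdg (Ric0 R) 1),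
        q4, q5 R, q4, q5 _ R]
      funext i j k l
      simp only [Pi.add_apply, Pi.smul_apply, smul_eq_mul]
      ring
    rw [e1, hSH n _ _ hY, e2, e3]
    have e5 : Ric0 (Q R + Dab a b R) = act R (Ric0 R) + lam R • Ric R + Ric (Dab a b R)
        - (lam R ^ 2 + sig R + (c - 2 * b * sig R)) • (1 : M2 n) := by
      unfold Ric0
      rw [radd, ladd, hQR, hlQ, hlD]
      rfl
    unfold ell
    rw [e5, ladd, hlQ, hlD, hRD, hD]
    have h6 : ∀ X Y : M2 n, wdg (X - Y) 1 = wdg X 1 - wdg Y 1 := by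
      intro X Y
      funext i j k l
      simp only [wdg, Pi.sub_apply, Matrix.sub_apply]
      ring
    have hid : wdg (1 : M2 n) 1 = Id4 n := rfl
    rw [h6]
    simp only [wdg_add_left, wdg_smul_left, hid, hW1, hWA]
    funext i j k l
    simp only [Pi.add_apply, Pi.sub_apply, Pi.smul_apply, smul_eq_mul]
    rw [hc]
    linear_combination (- Id4 n i j k l) * hκN
  · rw [hRD]
    congr 2
    rw [hc]
    have hκ2 : κ = sig R *
      ((n : ℝ) * b ^ 2 * (1 - 2 * b) - 2 * (a - b) * (1 - 2 * b + (n : ℝ) * b ^ 2))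
        / (1 + 2 * ((n : ℝ) - 1) * a) := by
      rw [eq_div_iff hN]
      exact hκN
    have key : (n : ℝ) ^ 2 * b ^ 2 - 2 * ((n : ℝ) - 1) * (a - b) * (1 - 2 * b) =
        ((n : ℝ) * b ^ 2) * (1 + 2 * ((n : ℝ) - 1) * a) + ((n : ℝ) - 1) *
        ((n : ℝ) * b ^ 2 * (1 - 2 * b) - 2 * (a - b) * (1 - 2 * b + (n : ℝ) * b ^ 2)) := by
      ring
    rw [hκ2, key]
    have h9 : ∀ s x e N l : ℝ, N ≠ 0 → x * s + ((n : ℝ) - 1) * (2 * a * l + s * e / N) =
        2 * a * ((n : ℝ) - 1) * l + s * (x * N + ((n : ℝ) - 1) * e) / N := by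
      intro s x e N l hN'
      field_simp
      ring
    exact h9 _ _ _ _ _ hN

end Pool.Agent.Helper47.RFn
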