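import Pool.Agent.Helper19.RFn.GoalsM

/-! Project RFn: packet M-INT. -/

namespace Pool.Agent.Helper2.RFn

open Set

theorem int_aux (g g' : ℝ → ℝ) (Θ B : ℝ) (hg : ∀ t ∈ Ico 0 Θ, HasDerivWithinAt g (g' t) (Ico 0 Θ) t)
    (hb : ∀ t, 0 < t → t < Θ → g' t ≤ B / Real.sqrt t) (t : ℝ) (h0 : 0 < t) (ht : t < Θ) :
    g t - g 0 ≤ 2 * B * Real.sqrt t := by
  have hsub : Icc 0 t ⊆ Ico 0 Θ := fun r hr => ⟨hr.1, lt_of_le_of_lt hr.2 ht⟩
  have hd : ∀ r ∈ Ioo 0 t, HasDerivAt (fun r => g r - 2 * B * Real.sqrt r) (g' r - B / Real.sqrt r) r := by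
    intro r hr
    have h1 : HasDerivAt g (g' r) r :=
      (hg r ⟨hr.1.le, hr.2.trans ht⟩).hasDerivAt (Ico_mem_nhds hr.1 (hr.2.trans ht))
    have h2 := (Real.hasDerivAt_sqrt hr.1.ne').const_mul (2 * B)
    refine (h1.sub h2).congr_deriv ?_
    have : Real.sqrt r ≠ 0 := (Real.sqrt_pos.mpr hr.1).ne'
    field_simp
  have hanti : AntitoneOn (fun r => g r - 2 * B * Real.sqrt r) (Icc 0 t) := by
    refine antitoneOn_of_deriv_nonpos (convex_Icc 0 t) ?_ ?_ ?_
    · refine ContinuousOn.sub ?_ ?_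
      · exact fun r hr => (hg r (hsub hr)).continuousWithinAt.mono hsub
      · exact (continuous_const.mul Real.continuous_sqrt).continuousOn
    · rw [interior_Icc]
      exact fun r hr => (hd r hr).differentiableAt.differentiableWithinAt
    · rw [interior_Icc]
      intro r hr
      rw [(hd r hr).deriv]
      have := hb r hr.1 (hr.2.trans ht)
      linarith
  have h3 := hanti (left_mem_Icc.mpr h0.le) (right_mem_Icc.mpr h0.le) h0.le
  simp only [Real.sqrt_zero, mul_zero, sub_zero] at h3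
  linarith

theorem int : Pool.Agent.Helper19.RFn.IntStmt := by
  intro g g' Θ B hB hg hb t h0 ht
  rcases h0.eq_or_lt with rfl | h0
  · simp
  · rw [abs_le]
    constructor
    · have h1 := int_aux (fun r => - g r) (fun r => - g' r) Θ B (fun t ht => (hg t ht).neg)
        (fun t h0 ht => (neg_le_abs _).trans (hb t h0 ht)) t h0 ht
      linarith
    · exact int_aux g g' Θ B hg (fun t h0 ht => (le_abs_self _).trans (hb t h0 ht)) t h0 ht

end Pool.Agent.Helper2.RFn
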